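import Pool.Agent.Helper97.LO.MDDefs

/-!
# Primitive subsets with three or four elements

Every (possibly infinite) primitive set with at least three elements contains a primitive subset
with three or four elements.
-/

set_option autoImplicit false
set_option linter.unusedSectionVars false
set_option linter.unusedVariables false
set_option linter.unusedSimpArgs false

namespace Pool.Agent.Helper97.MD

open Set

variable {M A : Type} {τ : M → M → A}

/-- in a triple which is not primitive, one element does not distinguish the others -/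
theorem triple_of_not_prim {x y z : M} (h : ¬ IsPrim τ {x, y, z}) :
    τ x y = τ x z ∨ τ y x = τ y z ∨ τ z x = τ z y := by
  unfold IsPrim at h
  push Not at h
  obtain ⟨X, hXT, hmod, hns, hne⟩ := h
  by_contra hcon
  push Not at hcon
  obtain ⟨c1, c2, c3⟩ := hcon
  by_cases hx : x ∈ X
  · by_cases hy : y ∈ X
    · by_cases hz : z ∈ X
      · apply hne
        refine Subset.antisymm hXT ?_
        rintro w (rfl | rfl | rfl)
        · exact hx
        · exact hy
        · exact hz
      · exact c3 (hmod z (by simp) hz x hx y hy)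
    · by_cases hz : z ∈ X
      · exact c2 (hmod y (by simp) hy x hx z hz)
      · refine absurd hns (Set.not_nontrivial_iff.mpr ?_)
        intro a ha b hb
        have ha' : a = x := by
          rcases hXT ha with rfl | rfl | rfl
          · rfl
          · exact absurd ha hy
          · exact absurd ha hz
        have hb' : b = x := by
          rcases hXT hb with rfl | rfl | rfl
          · rfl
          · exact absurd hb hy
          · exact absurd hb hz
        rw [ha', hb']
  · by_cases hy : y ∈ X
    · by_cases hz : z ∈ X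
      · exact c1 (hmod x (by simp) hx y hy z hz)
      · refine absurd hns (Set.not_nontrivial_iff.mpr ?_)
        intro a ha b hb
        have ha' : a = y := by
          rcases hXT ha with rfl | rfl | rfl
          · exact absurd ha hx
          · rfl
          · exact absurd ha hz
        have hb' : b = y := by
          rcases hXT hb with rfl | rfl | rfl
          · exact absurd hb hx
          · rfl
          · exact absurd hb hz
        rw [ha', hb']
    · refine absurd hns (Set.not_nontrivial_iff.mpr ?_)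
      intro a ha b hb
      have ha' : a = z := by
        rcases hXT ha with rfl | rfl | rfl
        · exact absurd ha hx
        · exact absurd ha hy
        · rfl
      have hb' : b = z := by
        rcases hXT hb with rfl | rfl | rfl
        · exact absurd hb hx
        · exact absurd hb hy
        · rfl
      rw [ha', hb']

/-- the quadruples used below -/
theorem quad_of_not_prim (hr : Rev τ) {v y y' z : M} (h : ¬ IsPrim τ {v, y, y', z})
    (h1 : τ v y = τ v y') (h2 : τ v y ≠ τ v z) (h3 : τ y z = τ v z) (h4 : τ y' z = τ y' v)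
    (h5 : τ z y ≠ τ z y') : τ y y' = τ v y' := by
  unfold IsPrim at h
  push Not at h
  obtain ⟨X, hXT, hmod, hns, hne⟩ := h
  have h6 : τ v y' ≠ τ v z := h1 ▸ h2
  have h7 : τ y z ≠ τ y' z := fun h' => h5 (hr _ _ _ _ h')
  have hv := hmod v (by simp)
  have hy := hmod y (by simp)
  have hy' := hmod y' (by simp)
  have hz := hmod z (by simp)
  -- pairs which cannot lie in a module avoiding a given element
  have k1 : v ∉ X → y ∈ X → z ∉ X := fun a b c => h2 (hv a y b z c)
  have k2 : v ∉ X → y' ∈ X → z ∉ X := fun a b c => h6 (hv a y' b z c)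
  have k3 : z ∉ X → y ∈ X → y' ∉ X := fun a b c => h5 (hz a y b y' c)
  have k4 : z ∉ X → v ∈ X → y' ∉ X := fun a b c => by
    have e1 := hr _ _ _ _ (hz a v b y' c)
    -- τ v z = τ y' z = τ y' v = τ y v, and τ y z = τ v z
    have e2 : τ y' v = τ y v := (hr _ _ _ _ h1).symm
    exact h7 (h3.trans e1)
  have k5 : y ∉ X → v ∈ X → z ∉ X := fun a b c => by
    have e1 := hy a v b z c
    have e2 : τ y' v = τ y v := (hr _ _ _ _ h1).symm
    exact h7 (e1.symm.trans (e2.symm.trans h4.symm))
  have k6 : y' ∉ X → v ∈ X → y ∈ X → τ y y' = τ v y' := fun a b c =>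
    (hr _ _ _ _ (hy' a v b y c)).symm
  have hsub : ∀ w, (∀ u ∈ X, u = w) → False := by
    intro w hw
    refine absurd hns (Set.not_nontrivial_iff.mpr ?_)
    intro a ha b hb
    rw [hw a ha, hw b hb]
  have hX : ∀ u ∈ X, u = v ∨ u = y ∨ u = y' ∨ u = z := fun u hu => hXT hu
  by_contra hcon
  by_cases mv : v ∈ X
  · by_cases my : y ∈ X
    · by_cases my' : y' ∈ X
      · by_cases mz : z ∈ X
        · apply hne
          refine Subset.antisymm hXT ?_
          rintro w (rfl | rfl | rfl | rfl)
          · exact mv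
          · exact my
          · exact my'
          · exact mz
        · exact k3 mz my my'
      · exact hcon (k6 my' mv my)
    · by_cases mz : z ∈ X
      · exact k5 my mv mz
      · by_cases my' : y' ∈ X
        · exact k4 mz mv my'
        · refine hsub v fun u hu => ?_
          rcases hX u hu with rfl | rfl | rfl | rfl
          · rfl
          · exact absurd hu my
          · exact absurd hu my'
          · exact absurd hu mz
  · by_cases mz : z ∈ X
    · refine hsub z fun u hu => ?_
      rcases hX u hu with rfl | rfl | rfl | rfl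
      · exact absurd hu mv
      · exact absurd mz (k1 mv hu)
      · exact absurd mz (k2 mv hu)
      · rfl
    · by_cases my : y ∈ X
      · refine hsub y fun u hu => ?_
        rcases hX u hu with rfl | rfl | rfl | rfl
        · exact absurd hu mv
        · rfl
        · exact absurd hu (k3 mz my)
        · exact absurd hu mz
      · refine hsub y' fun u hu => ?_
        rcases hX u hu with rfl | rfl | rfl | rfl
        · exact absurd hu mv
        · exact absurd hu my
        · rfl
        · exact absurd hu mz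

/-- No primitive triples and quadruples: pairs seen with the same label. -/
theorem total_same (hr : Rev τ) {R : Set M} (hR : IsPrim τ R)
    (H3 : ∀ x ∈ R, ∀ y ∈ R, ∀ z ∈ R, x ≠ y → x ≠ z → y ≠ z →
      τ x y = τ x z ∨ τ y x = τ y z ∨ τ z x = τ z y)
    (H4 : ∀ v ∈ R, ∀ y ∈ R, ∀ y' ∈ R, ∀ z ∈ R, v ≠ y → v ≠ y' → v ≠ z → y ≠ y' → y ≠ z →
      y' ≠ z → τ v y = τ v y' → τ v y ≠ τ v z → τ y z = τ v z → τ y' z = τ y' v →
      τ z y ≠ τ z y' → τ y y' = τ v y')
    {v y y' : M} (hv : v ∈ R) (hy : y ∈ R) (hy' : y' ∈ R) (hvy : v ≠ y) (hvy' : v ≠ y')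
    (hyy' : y ≠ y') (h : τ v y = τ v y') : τ y y' = τ v y' ∨ τ y' y = τ v y := by
  by_contra hcon
  push Not at hcon
  obtain ⟨c1, c2⟩ := hcon
  set a := τ v y with ha
  let G : M → M → Prop := fun p q => q ∈ R ∧ q ≠ v ∧ τ v q = a ∧ p ≠ q ∧ τ p q ≠ a ∧ τ q p ≠ a
  let C : Set M := {w | Relation.ReflTransGen G y w}
  have hC : ∀ w ∈ C, w ∈ R ∧ w ≠ v ∧ τ v w = a := by
    intro w hw
    have hw' : Relation.ReflTransGen G y w := hw
    induction hw' with
    | refl => exact ⟨hy, hvy.symm, rfl⟩
    | tail _ hab _ => exact ⟨hab.1, hab.2.1, hab.2.2.1⟩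
  have hstep : ∀ z ∈ R, z ∉ C → ∀ p ∈ C, ∀ q, G p q → τ z p = τ z q := by
    intro z hz hzC p hp q hpq
    have hq : q ∈ C := Relation.ReflTransGen.tail hp hpq
    obtain ⟨hpR, hpv, hpa⟩ := hC p hp
    obtain ⟨hqR, hqv, hqa, hne, hpq1, hpq2⟩ := hpq
    have hzp : z ≠ p := fun h' => hzC (h' ▸ hp)
    have hzq : z ≠ q := fun h' => hzC (h' ▸ hq)
    by_contra hzpq
    by_cases hzv : z = v
    · subst hzv
      exact hzpq (hpa.trans hqa.symm)
    by_cases hza : τ v z = a
    · -- the same label from `v`
      have hnp : ¬ (τ p z ≠ a ∧ τ z p ≠ a) := fun h' =>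
        hzC (Relation.ReflTransGen.tail hp ⟨hz, hzv, hza, hzp.symm, h'.1, h'.2⟩)
      have hnq : ¬ (τ q z ≠ a ∧ τ z q ≠ a) := fun h' =>
        hzC (Relation.ReflTransGen.tail hq ⟨hz, hzv, hza, hzq.symm, h'.1, h'.2⟩)
      rcases H3 z hz p hpR q hqR hzp hzq hne with h1 | h1 | h1
      · exact hzpq h1
      · refine hnp ⟨?_, ?_⟩
        · rw [h1]
          exact hpq1
        · rw [hr _ _ _ _ h1]
          exact hpq2
      · refine hnq ⟨?_, ?_⟩
        · rw [h1]
          exact hpq2
        · rw [hr _ _ _ _ h1]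
          exact hpq1
    · -- a different label from `v`
      have hpz := H3 v hv p hpR z hz (Ne.symm hpv) (Ne.symm hzv) hzp.symm
      have hqz := H3 v hv q hqR z hz (Ne.symm hqv) (Ne.symm hzv) hzq.symm
      have hp' : τ p v = τ p z ∨ τ z v = τ z p := by
        rcases hpz with h1 | h1 | h1
        · exact absurd (h1.symm.trans hpa) hza
        · exact Or.inl h1
        · exact Or.inr h1
      have hq' : τ q v = τ q z ∨ τ z v = τ z q := by
        rcases hqz with h1 | h1 | h1
        · exact absurd (h1.symm.trans hqa) hza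
        · exact Or.inl h1
        · exact Or.inr h1
      have hpq' : τ v p = τ v q := hpa.trans hqa.symm
      rcases hp' with h1 | h1 <;> rcases hq' with h2 | h2
      · have h3 : τ p v = τ q v := hr _ _ _ _ hpq'
        have h4 : τ p z = τ q z := h1.symm.trans (h3.trans h2)
        exact hzpq (hr _ _ _ _ h4)
      · have h3 := H4 v hv q hqR p hpR z hz (Ne.symm hqv) (Ne.symm hpv) (Ne.symm hzv) hne.symm
          hzq.symm hzp.symm hpq'.symm (fun h' => hza (h'.symm.trans hqa))
          (hr _ _ _ _ h2).symm h1.symm (fun h' => hzpq h'.symm)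
        exact hpq2 (h3.trans hpa)
      · have h3 := H4 v hv p hpR q hqR z hz (Ne.symm hpv) (Ne.symm hqv) (Ne.symm hzv) hne
          hzp.symm hzq.symm hpq' (fun h' => hza (h'.symm.trans hpa))
          (hr _ _ _ _ h1).symm h2.symm hzpq
        exact hpq1 (h3.trans hqa)
      · exact hzpq (h1.symm.trans h2)
  have hmod : ∀ z ∈ R, z ∉ C → ∀ x ∈ C, τ z x = τ z y := by
    intro z hz hzC x hx
    have hx' : Relation.ReflTransGen G y x := hx
    induction hx' with
    | refl => rfl
    | tail hab hbc ih => exact (hstep z hz hzC _ hab _ hbc).symm.trans (ih hab)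
  have hy'C : y' ∈ C := Relation.ReflTransGen.single ⟨hy', hvy'.symm, h.symm, hyy', by
    rw [h]
    exact c1, c2⟩
  rcases hR C (fun w hw => (hC w hw).1) (fun z hz hzC x hx x' hx' =>
    (hmod z hz hzC x hx).trans (hmod z hz hzC x' hx').symm) with h1 | h1
  · exact hyy' (h1 (show y ∈ C from Relation.ReflTransGen.refl) hy'C)
  · have hvC : v ∈ C := h1 ▸ hv
    exact (hC v hvC).2.1 rfl

/-- A set with at least three elements whose triples and quadruples satisfy the following
conditions is not primitive. -/
theorem not_prim_of (hr : Rev τ) {R : Set M} (hR : IsPrim τ R) {a b c : M} (ha : a ∈ R)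
    (hb : b ∈ R) (hc : c ∈ R) (hab : a ≠ b) (hac : a ≠ c) (hbc : b ≠ c)
    (H3 : ∀ x ∈ R, ∀ y ∈ R, ∀ z ∈ R, x ≠ y → x ≠ z → y ≠ z →
      τ x y = τ x z ∨ τ y x = τ y z ∨ τ z x = τ z y)
    (H4 : ∀ v ∈ R, ∀ y ∈ R, ∀ y' ∈ R, ∀ z ∈ R, v ≠ y → v ≠ y' → v ≠ z → y ≠ y' → y ≠ z →
      y' ≠ z → τ v y = τ v y' → τ v y ≠ τ v z → τ y z = τ v z → τ y' z = τ y' v →
      τ z y ≠ τ z y' → τ y y' = τ v y') : False := by
  -- two elements seen from a third one
  have T2 : ∀ v ∈ R, ∀ y ∈ R, ∀ z ∈ R, v ≠ y → v ≠ z → y ≠ z →
      τ z v = τ z y ∨ τ y v = τ y z := by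
    intro v hv y hy z hz n1 n2 n3
    by_cases h : τ v y = τ v z
    · rcases total_same hr hR H3 H4 hv hy hz n1 n2 n3 h with h1 | h1
      · exact Or.inl (hr _ _ _ _ h1).symm
      · exact Or.inr (hr _ _ _ _ h1).symm
    · rcases H3 v hv y hy z hz n1 n2 n3 with h1 | h1 | h1
      · exact absurd h1 h
      · exact Or.inr h1
      · exact Or.inl h1
  -- triples have one label
  have T3 : ∀ x ∈ R, ∀ y ∈ R, ∀ z ∈ R, x ≠ y → x ≠ z → y ≠ z →
      (τ x z = τ x y ∨ τ z x = τ x y) ∧ (τ y z = τ x y ∨ τ z y = τ x y) := by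
    intro x hx y hy z hz n1 n2 n3
    have t1 := T2 x hx y hy z hz n1 n2 n3
    have t2 := T2 y hy x hx z hz n1.symm n3 n2
    have t3 := T2 z hz x hx y hy n2.symm n3.symm n1
    -- X : τ x y = τ x z, Y : τ y x = τ y z, Z : τ z x = τ z y
    by_cases X : τ x y = τ x z
    · by_cases Y : τ y x = τ y z
      · exact ⟨Or.inl X.symm, Or.inr (hr _ _ _ _ Y).symm⟩
      · have Z : τ z x = τ z y := by
          rcases t1 with h | h
          · exact h
          · exact absurd h Y
        refine ⟨Or.inl X.symm, Or.inl ?_⟩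
        have h1 : τ y x = τ z x := hr _ _ _ _ X
        exact (hr _ _ _ _ (h1.trans Z)).symm
    · have Z : τ z x = τ z y := by
        rcases t2 with h | h
        · exact h.symm
        · exact absurd h X
      have Y : τ y x = τ y z := by
        rcases t3 with h | h
        · exact h.symm
        · exact absurd h.symm X
      have h1 : τ z y = τ x y := (hr _ _ _ _ Y).symm
      exact ⟨Or.inr (Z.trans h1), Or.inr h1⟩
  set p := τ a b with hp
  have E3 : ∀ x ∈ R, ∀ y ∈ R, ∀ z ∈ R, x ≠ y → x ≠ z → y ≠ z → (τ x y = p ∨ τ y x = p) →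
      (τ x z = p ∨ τ z x = p) ∧ (τ y z = p ∨ τ z y = p) := by
    intro x hx y hy z hz n1 n2 n3 h
    rcases h with h | h
    · have := T3 x hx y hy z hz n1 n2 n3
      rwa [h] at this
    · have := T3 y hy x hx z hz n1.symm n3 n2
      rw [h] at this
      exact ⟨this.2, this.1⟩
  have Ea : ∀ x ∈ R, x ≠ a → τ a x = p ∨ τ x a = p := by
    intro x hx hxa
    by_cases hxb : x = b
    · exact Or.inl (by rw [hxb])
    · exact (E3 a ha b hb x hx hab hxa.symm (Ne.symm hxb) (Or.inl rfl)).1
  have E : ∀ x ∈ R, ∀ y ∈ R, x ≠ y → τ x y = p ∨ τ y x = p := by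
    intro x hx y hy hxy
    by_cases hxa : x = a
    · subst hxa
      exact Ea y hy hxy.symm
    · by_cases hya : y = a
      · subst hya
        exact (Ea x hx hxy).symm
      · exact (E3 a ha x hx y hy (Ne.symm hxa) (Ne.symm hya) hxy (Ea x hx hxa)).2
  by_cases hsym : τ b a = p
  · -- complete
    have hall : ∀ x ∈ R, ∀ y ∈ R, x ≠ y → τ x y = p := by
      intro x hx y hy hxy
      rcases E x hx y hy hxy with h | h
      · exact h
      · have h1 : τ y x = τ b a := h.trans hsym.symm
        exact (hr _ _ _ _ h1).trans rfl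
    rcases hR {a, b} (by
      rintro w (rfl | rfl)
      · exact ha
      · exact hb) (by
      intro z hz hzn x hx x' hx'
      have hzx : ∀ x ∈ ({a, b} : Set M), τ z x = p := by
        intro x hx
        have hxR : x ∈ R := by
          rcases hx with rfl | rfl
          · exact ha
          · exact hb
        exact hall z hz x hxR (fun h => hzn (h ▸ hx))
      rw [hzx x hx, hzx x' hx']) with h | h
    · exact hab (h (Or.inl rfl) (Or.inr rfl))
    · have : c ∈ ({a, b} : Set M) := h ▸ hc
      rcases this with h1 | h1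
      · exact hac h1.symm
      · exact hbc h1.symm
  · -- a chain
    have hasym : ∀ x y, τ x y = p → τ y x = τ b a := fun x y h => hr _ _ _ _ h
    have hnot : ∀ x y, τ x y = p → τ y x ≠ p := fun x y h h' => hsym ((hasym x y h).symm.trans h')
    have htr : ∀ x ∈ R, ∀ y ∈ R, ∀ z ∈ R, x ≠ y → x ≠ z → y ≠ z → τ x y = p → τ y z = p →
        τ x z = p := by
      intro x hx y hy z hz n1 n2 n3 h1 h2
      rcases E x hx z hz n2 with h3 | h3
      · exact h3
      · exfalso
        rcases T2 x hx y hy z hz n1 n2 n3 with h | h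
        · exact hnot y z h2 (h.symm.trans h3)
        · exact hnot x y h1 (h.trans h2)
    -- an element with two elements below it gives a module
    have key : ∀ w ∈ R, ∀ x ∈ R, ∀ y ∈ R, w ≠ x → w ≠ y → x ≠ y → τ x w = p → τ y w = p →
        False := by
      intro w hw x hx y hy n1 n2 n3 h1 h2
      rcases hR {u ∈ R | u ≠ w ∧ τ u w = p} (fun u hu => hu.1) (by
        intro z hz hzn u hu u' hu'
        have hzu : ∀ u ∈ {u ∈ R | u ≠ w ∧ τ u w = p}, τ z u = τ b a := by
          intro u hu
          by_cases hzw : z = w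
          · rw [hzw]
            exact hasym _ _ hu.2.2
          · have h3 : τ w z = p := by
              rcases E w hw z hz (Ne.symm hzw) with h | h
              · exact h
              · exact absurd ⟨hz, hzw, h⟩ hzn
            have huz : u ≠ z := fun h => hzn (h ▸ hu)
            exact hasym _ _ (htr u hu.1 w hw z hz hu.2.1 huz (Ne.symm hzw) hu.2.2 h3)
        rw [hzu u hu, hzu u' hu']) with h | h
      · exact n3 (h ⟨hx, n1.symm, h1⟩ ⟨hy, n2.symm, h2⟩)
      · have : w ∈ {u ∈ R | u ≠ w ∧ τ u w = p} := by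
          rw [h]
          exact hw
        exact this.2.1 rfl
    rcases E a ha b hb hab with h1 | h1 <;> rcases E a ha c hc hac with h2 | h2 <;>
      rcases E b hb c hc hbc with h3 | h3
    · exact key c hc a ha b hb hac.symm hbc.symm hab h2 h3
    · exact key b hb a ha c hc hab.symm hbc hac h1 h3
    · exact hnot a c (htr a ha b hb c hc hab hac hbc h1 h3) h2
    · exact key b hb a ha c hc hab.symm hbc hac h1 h3
    · exact key c hc a ha b hb hac.symm hbc.symm hab h2 h3
    · exact hnot a b (htr a ha c hc b hb hac hab hbc.symm h2 h3) h1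
    · exact key a ha b hb c hc hab hac hbc h1 h2
    · exact key a ha b hb c hc hab hac hbc h1 h2

/-- **Every primitive set with at least three elements contains a primitive subset with three or
four elements.** -/
theorem three_or_four (hr : Rev τ) {R : Set M} (hR : IsPrim τ R) {a b c : M} (ha : a ∈ R)
    (hb : b ∈ R) (hc : c ∈ R) (hab : a ≠ b) (hac : a ≠ c) (hbc : b ≠ c) :
    ∃ T ⊆ R, (T.ncard = 3 ∨ T.ncard = 4) ∧ IsPrim τ T := by
  by_contra hcon
  push Not at hcon
  refine not_prim_of hr hR ha hb hc hab hac hbc ?_ ?_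
  · intro x hx y hy z hz hxy hxz hyz
    refine triple_of_not_prim (hcon {x, y, z} ?_ (Or.inl ?_))
    · rintro w (rfl | rfl | rfl)
      · exact hx
      · exact hy
      · exact hz
    · exact Set.ncard_eq_three.mpr ⟨x, y, z, hxy, hxz, hyz, rfl⟩
  · intro v hv y hy y' hy' z hz n1 n2 n3 n4 n5 n6 h1 h2 h3 h4 h5
    refine quad_of_not_prim hr (hcon {v, y, y', z} ?_ (Or.inr ?_)) h1 h2 h3 h4 h5
    · rintro w (rfl | rfl | rfl | rfl)
      · exact hv
      · exact hy
      · exact hy'
      · exact hz
    · have e3 : ({y, y', z} : Set M).ncard = 3 :=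
        Set.ncard_eq_three.mpr ⟨y, y', z, n4, n5, n6, rfl⟩
      rw [Set.ncard_insert_of_notMem (by
        simp only [mem_insert_iff, mem_singleton_iff, not_or]
        exact ⟨n1, n2, n3⟩) (toFinite _), e3]

/-- a coarser labelling of a primitive set with the same modules -/
theorem IsPrim.congr {A' : Type} {τ' : M → M → A'} {R : Set M} (hR : IsPrim τ R)
    (h : ∀ z x x', z ≠ x → z ≠ x' → τ' z x = τ' z x' → τ z x = τ z x') : IsPrim τ' R := by
  intro X hX hmod
  refine hR X hX fun z hz hzX x hx x' hx' => ?_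
  exact h z x x' (fun e => hzX (e ▸ hx)) (fun e => hzX (e ▸ hx')) (hmod z hz hzX x hx x' hx')

/-- **N-free orders.** A strict partial order without four elements `v < y > z' ...` forming the
letter N has no primitive subset with at least three elements. -/
theorem nfree {lt : M → M → Prop} (hirr : ∀ x, ¬ lt x x)
    (htr : ∀ x y z, lt x y → lt y z → lt x z)
    (hN : ∀ a b c d, lt a b → lt c b → lt c d → (lt a c ∨ lt c a ∨ lt b d ∨ lt d b ∨ lt a d ∨
      lt d a ∨ a = c ∨ b = d ∨ a = d))
    {R : Set M} (hR : IsPrim (fun x y => (lt x y, lt y x)) R) {a b c : M} (ha : a ∈ R)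
    (hb : b ∈ R) (hc : c ∈ R) (hab : a ≠ b) (hac : a ≠ c) (hbc : b ≠ c) : False := by
  have hrev : Rev fun x y => (lt x y, lt y x) := by
    intro x y x' y' h
    obtain ⟨h1, h2⟩ := Prod.mk.inj h
    exact Prod.ext h2 h1
  have has : ∀ x y, lt x y → ¬ lt y x := fun x y h h' => hirr x (htr x y x h h')
  refine not_prim_of hrev hR ha hb hc hab hac hbc ?_ ?_
  · intro x _ y _ z _ hxy hxz hyz
    simp only [Prod.mk.injEq, eq_iff_iff]
    have t1 := htr x y z
    have t2 := htr x z y
    have t3 := htr y x z
    have t4 := htr y z x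
    have t5 := htr z x y
    have t6 := htr z y x
    have a1 := has x y
    have a2 := has x z
    have a3 := has y z
    by_cases b1 : lt x y <;> by_cases b2 : lt y x <;> by_cases b3 : lt x z <;>
      by_cases b4 : lt z x <;> by_cases b5 : lt y z <;> by_cases b6 : lt z y <;>
      simp_all
  · intro v _ y _ y' _ z _ n1 n2 n3 n4 n5 n6 h1 h2 h3 h4 h5
    simp only [Prod.mk.injEq, eq_iff_iff] at h1 h2 h3 h4 h5 ⊢
    obtain ⟨p1, p2⟩ := h1
    obtain ⟨p3, p4⟩ := h3
    obtain ⟨p5, p6⟩ := h4
    have N1 := hN z y' v y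
    have N2 := hN y v y' z
    have N3 := hN v z y y'
    have N4 := hN y' y z v
    have t1 := htr v y y'
    have t2 := htr v y' y
    have t3 := htr y v y'
    have t4 := htr y y' v
    have t5 := htr y' v y
    have t6 := htr y' y v
    have t7 := htr v y z
    have t8 := htr v z y
    have t9 := htr z y y'
    have t10 := htr z y' y
    have t11 := htr y y' z
    have t12 := htr y' y z
    have a1 := has v y
    have a2 := has v z
    have a3 := has y y'
    have e1 : lt v y' ↔ lt v y := p1.symm
    have e2 : lt z y' ↔ lt v y := p6.trans e1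
    have e3 : lt y' v ↔ lt y v := p2.symm
    have e4 : lt y' z ↔ lt y v := p5.trans e3
    simp only [e1, e2, e3, e4, p3, p4, n1, n2, n3, n4, n5, n6, n1.symm, n2.symm, n3.symm,
      n4.symm, n5.symm, n6.symm, or_false] at *
    by_cases b1 : lt v y <;> by_cases b2 : lt y v <;> by_cases b3 : lt v z <;>
      by_cases b4 : lt z v <;> by_cases b5 : lt y y' <;> by_cases b6 : lt y' y <;>
      simp_all

/-- **Cographs.** A graph without induced path on four vertices has no primitive subset with at
least three elements. -/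
theorem p4free {adj : M → M → Prop} (hsym : ∀ x y, adj x y → adj y x)
    (hP : ∀ a b c d, adj a b → adj b c → adj c d → (adj a c ∨ adj b d ∨ adj a d ∨
      a = c ∨ b = d ∨ a = d))
    {R : Set M} (hR : IsPrim (fun x y => adj x y) R) {a b c : M} (ha : a ∈ R)
    (hb : b ∈ R) (hc : c ∈ R) (hab : a ≠ b) (hac : a ≠ c) (hbc : b ≠ c) : False := by
  have hs : ∀ x y, adj x y ↔ adj y x := fun x y => ⟨hsym x y, hsym y x⟩
  have hrev : Rev fun x y => adj x y := by
    intro x y x' y' h
    simp only [eq_iff_iff] at h ⊢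
    rw [hs y x, hs y' x', h]
  refine not_prim_of hrev hR ha hb hc hab hac hbc ?_ ?_
  · intro x _ y _ z _ hxy hxz hyz
    simp only [eq_iff_iff]
    rw [hs y x, hs z x, hs z y]
    tauto
  · intro v _ y _ y' _ z _ n1 n2 n3 n4 n5 n6 h1 h2 h3 h4 h5
    simp only [eq_iff_iff] at h1 h2 h3 h4 h5 ⊢
    have N1 := hP v z y y'
    have N2 := hP y v y' z
    rw [hs y' v] at h4
    rw [hs z y, hs z y'] at h5
    rw [hs z y] at N1
    rw [hs y v] at N2
    have e1 : adj z y' ↔ adj y' z := hs z y'
    have e2 : adj y' y ↔ adj y y' := hs y' y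
    simp only [n1, n2, n3, n4, n5, n6, n1.symm, n2.symm, n3.symm, n4.symm, n5.symm, n6.symm,
      or_false] at N1 N2
    tauto

end Pool.Agent.Helper97.MD
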