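import Pool.Agent.Helper97.VCM.Fin
import Pool.Agent.Helper68.VCM.Three

/-!
# Classes of structures without infinite primitive substructures

The hypothesis of the dichotomy for sparse primitive substructures holds for N-free orders (in
particular for linear orders and for forest orders), for graphs without induced path on four
vertices, and for pairs of linear orders without the patterns 2413 and 3142, all with any number
of unary predicates, and whenever no three or four element subset is primitive.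
-/

set_option autoImplicit false
set_option linter.unusedSectionVars false
set_option linter.unusedVariables false

namespace Pool.Agent.Helper97.LO.Cor

open Set Pool.Agent.Helper5 Pool.Agent.Helper5.DU Pool.Agent.Helper6.Str
  Pool.Agent.Helper79.VC Pool.Agent.Helper97.VC Pool.Agent.Helper97.MD Pool.Agent.Helper6.VC

variable {L : FirstOrder.Language.{0, 0}} {M : Type}

/-- the conclusion: the form of Vaught's conjecture with a perfect set of models -/
def Dich (L : FirstOrder.Language.{0, 0}) (T : L.Theory) (φ : FmI L 0) : Prop :=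
  (∃ g : ℕ → L.Structure ℕ, ∀ S : L.Structure ℕ, IsMod T φ S →
      ∃ n : ℕ, Nonempty (@FirstOrder.Language.Equiv L ℕ ℕ S (g n))) ∨
  (∃ f : (ℕ → Bool) → L.Structure ℕ, (∀ x : ℕ → Bool, IsMod T φ (f x)) ∧
      (∀ x y : ℕ → Bool,
          Nonempty (@FirstOrder.Language.Equiv L ℕ ℕ (f x) (f y)) → x = y) ∧
      (∀ (n : ℕ) (R : L.Relations n) (a : Fin n → ℕ),
          IsClopen {x : ℕ → Bool | @FirstOrder.Language.Structure.RelMap L ℕ (f x) n R a}))

theorem rev_bt (S : L.Structure M) : Rev (bt S) := by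
  intro x y x' y' h
  obtain ⟨h1, h2⟩ := Prod.mk.inj h
  exact Prod.ext h2 h1

theorem exists_three {P : Set M} (hP : P.Infinite) :
    ∃ a ∈ P, ∃ b ∈ P, ∃ c ∈ P, a ≠ b ∧ a ≠ c ∧ b ≠ c := by
  obtain ⟨a, ha⟩ := hP.nonempty
  obtain ⟨b, hb, hb'⟩ := (hP.diff (finite_singleton a)).nonempty
  obtain ⟨c, hc, hc'⟩ := (hP.diff (toFinite {a, b})).nonempty
  refine ⟨a, ha, b, hb, c, hc, fun e => hb' e.symm, fun e => hc' ?_, fun e => hc' ?_⟩
  · exact Or.inl e.symm
  · exact Or.inr e.symm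

/-- it suffices that there are no primitive subsets with three or four elements -/
theorem sparse_of_small (S : L.Structure M)
    (h : ∀ R : Set M, IsPrim (bt S) R → R.ncard ≠ 3 ∧ R.ncard ≠ 4) : SparsePrim S := by
  intro P hP hprim
  exfalso
  obtain ⟨a, ha, b, hb, c, hc, h1, h2, h3⟩ := exists_three hP
  obtain ⟨Q, hQ, hQc, hQp⟩ := three_or_four (rev_bt S) hprim ha hb hc h1 h2 h3
  rcases hQc with hQc | hQc
  · exact (h Q hQp).1 hQc
  · exact (h Q hQp).2 hQc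

/-- **Classes in which no substructure with three or four elements is primitive.** -/
theorem dich_small (hc : Countable L.Symbols) (hrel : ∀ n, IsEmpty (L.Functions n))
    (hL : ∀ n, n ≠ 1 → n ≠ 2 → IsEmpty (L.Relations n)) (T : L.Theory) (φ : FmI L 0)
    (h : ∀ S : L.Structure ℕ, IsMod T φ S → ∀ R : Set ℕ, IsPrim (bt S) R →
      R.ncard ≠ 3 ∧ R.ncard ≠ 4) : Dich L T φ :=
  TR.dichotomy_of_sparsePrim hc hrel hL T φ fun S hS => sparse_of_small S (h S hS)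

/-- one binary symbol: the order -/
theorem sparse_nfree (S : L.Structure M) (r : L.Relations 2) (hr : ∀ R : L.Relations 2, R = r)
    (hirr : ∀ x, ¬ S.RelMap r ![x, x])
    (htr : ∀ x y z, S.RelMap r ![x, y] → S.RelMap r ![y, z] → S.RelMap r ![x, z])
    (hN : ∀ a b c d, S.RelMap r ![a, b] → S.RelMap r ![c, b] → S.RelMap r ![c, d] →
      (S.RelMap r ![a, c] ∨ S.RelMap r ![c, a] ∨ S.RelMap r ![b, d] ∨ S.RelMap r ![d, b] ∨
        S.RelMap r ![a, d] ∨ S.RelMap r ![d, a] ∨ a = c ∨ b = d ∨ a = d)) : SparsePrim S := by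
  intro P hP hprim
  exfalso
  obtain ⟨a, ha, b, hb, c, hc, h1, h2, h3⟩ := exists_three hP
  refine nfree (lt := fun x y => S.RelMap r ![x, y]) hirr htr hN
    (R := P) (hprim.congr ?_) ha hb hc h1 h2 h3
  intro z x x' _ _ h
  obtain ⟨e1, e2⟩ := Prod.mk.inj h
  refine Prod.ext ?_ ?_
  · ext R
    obtain rfl := hr R
    exact iff_of_eq e1
  · ext R
    obtain rfl := hr R
    exact iff_of_eq e2

/-- **Vaught's conjecture for N-free orders** with any number of unary predicates (in particular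
for linear orders and forest orders). -/
theorem dich_nfree (hc : Countable L.Symbols) (hrel : ∀ n, IsEmpty (L.Functions n))
    (hL : ∀ n, n ≠ 1 → n ≠ 2 → IsEmpty (L.Relations n)) (T : L.Theory) (φ : FmI L 0)
    (r : L.Relations 2) (hr : ∀ R : L.Relations 2, R = r)
    (h : ∀ S : L.Structure ℕ, IsMod T φ S → (∀ x, ¬ S.RelMap r ![x, x]) ∧
      (∀ x y z, S.RelMap r ![x, y] → S.RelMap r ![y, z] → S.RelMap r ![x, z]) ∧
      (∀ a b c d, S.RelMap r ![a, b] → S.RelMap r ![c, b] → S.RelMap r ![c, d] →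
      (S.RelMap r ![a, c] ∨ S.RelMap r ![c, a] ∨ S.RelMap r ![b, d] ∨ S.RelMap r ![d, b] ∨
        S.RelMap r ![a, d] ∨ S.RelMap r ![d, a] ∨ a = c ∨ b = d ∨ a = d))) : Dich L T φ :=
  TR.dichotomy_of_sparsePrim hc hrel hL T φ fun S hS =>
    sparse_nfree S r hr (h S hS).1 (h S hS).2.1 (h S hS).2.2

/-- **Vaught's conjecture for linear orders** with any number of unary predicates. -/
theorem dich_linear (hc : Countable L.Symbols) (hrel : ∀ n, IsEmpty (L.Functions n))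
    (hL : ∀ n, n ≠ 1 → n ≠ 2 → IsEmpty (L.Relations n)) (T : L.Theory) (φ : FmI L 0)
    (r : L.Relations 2) (hr : ∀ R : L.Relations 2, R = r)
    (h : ∀ S : L.Structure ℕ, IsMod T φ S → (∀ x, ¬ S.RelMap r ![x, x]) ∧
      (∀ x y z, S.RelMap r ![x, y] → S.RelMap r ![y, z] → S.RelMap r ![x, z]) ∧
      (∀ x y, S.RelMap r ![x, y] ∨ x = y ∨ S.RelMap r ![y, x])) : Dich L T φ := by
  refine dich_nfree hc hrel hL T φ r hr fun S hS => ⟨(h S hS).1, (h S hS).2.1, ?_⟩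
  intro a b c d _ _ _
  rcases (h S hS).2.2 a c with h' | h' | h' <;> tauto

/-- **Vaught's conjecture for forest orders** (the elements below an element are comparable) with
any number of unary predicates. -/
theorem dich_forest (hc : Countable L.Symbols) (hrel : ∀ n, IsEmpty (L.Functions n))
    (hL : ∀ n, n ≠ 1 → n ≠ 2 → IsEmpty (L.Relations n)) (T : L.Theory) (φ : FmI L 0)
    (r : L.Relations 2) (hr : ∀ R : L.Relations 2, R = r)
    (h : ∀ S : L.Structure ℕ, IsMod T φ S → (∀ x, ¬ S.RelMap r ![x, x]) ∧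
      (∀ x y z, S.RelMap r ![x, y] → S.RelMap r ![y, z] → S.RelMap r ![x, z]) ∧
      (∀ x y z, S.RelMap r ![x, z] → S.RelMap r ![y, z] →
        S.RelMap r ![x, y] ∨ x = y ∨ S.RelMap r ![y, x])) : Dich L T φ := by
  refine dich_nfree hc hrel hL T φ r hr fun S hS => ⟨(h S hS).1, (h S hS).2.1, ?_⟩
  intro a b c d hab hcb _
  rcases (h S hS).2.2 a c b hab hcb with h' | h' | h' <;> tauto

/-- one binary symbol: adjacency -/
theorem sparse_p4free (S : L.Structure M) (r : L.Relations 2) (hr : ∀ R : L.Relations 2, R = r)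
    (hsym : ∀ x y, S.RelMap r ![x, y] → S.RelMap r ![y, x])
    (hP : ∀ a b c d, S.RelMap r ![a, b] → S.RelMap r ![b, c] → S.RelMap r ![c, d] →
      (S.RelMap r ![a, c] ∨ S.RelMap r ![b, d] ∨ S.RelMap r ![a, d] ∨
        a = c ∨ b = d ∨ a = d)) : SparsePrim S := by
  intro P hPi hprim
  exfalso
  obtain ⟨a, ha, b, hb, c, hc, h1, h2, h3⟩ := exists_three hPi
  refine p4free (adj := fun x y => S.RelMap r ![x, y]) hsym hP
    (R := P) (hprim.congr ?_) ha hb hc h1 h2 h3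
  intro z x x' _ _ e1
  have e2 : S.RelMap r ![x, z] = S.RelMap r ![x', z] := by
    have e1' : S.RelMap r ![z, x] = S.RelMap r ![z, x'] := e1
    refine propext ⟨fun h => ?_, fun h => ?_⟩
    · exact hsym _ _ (e1' ▸ hsym _ _ h)
    · exact hsym _ _ (e1'.symm ▸ hsym _ _ h)
  refine Prod.ext ?_ ?_
  · ext R
    obtain rfl := hr R
    exact iff_of_eq e1
  · ext R
    obtain rfl := hr R
    exact iff_of_eq e2

/-- **Vaught's conjecture for cographs** (no induced path on four vertices) with any number of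
unary predicates. -/
theorem dich_p4free (hc : Countable L.Symbols) (hrel : ∀ n, IsEmpty (L.Functions n))
    (hL : ∀ n, n ≠ 1 → n ≠ 2 → IsEmpty (L.Relations n)) (T : L.Theory) (φ : FmI L 0)
    (r : L.Relations 2) (hr : ∀ R : L.Relations 2, R = r)
    (h : ∀ S : L.Structure ℕ, IsMod T φ S →
      (∀ x y, S.RelMap r ![x, y] → S.RelMap r ![y, x]) ∧
      (∀ a b c d, S.RelMap r ![a, b] → S.RelMap r ![b, c] → S.RelMap r ![c, d] →
        (S.RelMap r ![a, c] ∨ S.RelMap r ![b, d] ∨ S.RelMap r ![a, d] ∨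
          a = c ∨ b = d ∨ a = d))) : Dich L T φ :=
  TR.dichotomy_of_sparsePrim hc hrel hL T φ fun S hS =>
    sparse_p4free S r hr (h S hS).1 (h S hS).2

/-- a strict linear order -/
def SLO (l : M → M → Prop) : Prop :=
  (∀ x, ¬ l x x) ∧ (∀ x y z, l x y → l y z → l x z) ∧ ∀ x y, l x y ∨ x = y ∨ l y x

theorem SLO.neg {l : M → M → Prop} (h : SLO l) {x y : M} (hxy : x ≠ y) :
    l y x ↔ ¬ l x y := by
  obtain ⟨i1, t1, c1⟩ := h
  refine ⟨fun h' h'' => i1 x (t1 x y x h'' h'), fun h' => ?_⟩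
  rcases c1 x y with h1 | h1 | h1
  · exact absurd h1 h'
  · exact absurd h1 hxy
  · exact h1

theorem SLO.two {l : M → M → Prop} (h : SLO l) {x y z : M} (hxy : x ≠ y) (hxz : x ≠ z)
    (hyz : y ≠ z) : ((l x y ↔ l x z) ∧ (l y x ↔ l y z)) ∨ ((l x y ↔ l x z) ∧ (l z x ↔ l z y)) ∨
      ((l y x ↔ l y z) ∧ (l z x ↔ l z y)) := by
  have r1 := h.neg hxy
  have r2 := h.neg hxz
  have r3 := h.neg hyz
  have p1 := h.2.1 x y z
  have p2 := h.2.1 x z y
  have p3 := h.2.1 y x z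
  have p4 := h.2.1 y z x
  have p5 := h.2.1 z x y
  have p6 := h.2.1 z y x
  by_cases b1 : l x y <;> by_cases b2 : l x z <;> by_cases b3 : l y z <;>
    simp_all

theorem SLO.ordEq {l : M → M → Prop} (h : SLO l) {v y y' z : M} (m2 : v ≠ y')
    (m5 : y ≠ z) (m6 : y' ≠ z) (m4 : y ≠ y') (m1 : v ≠ y) (m3 : v ≠ z)
    (h1 : l v y ↔ l v y') (h3 : l y z ↔ l v z)
    (h4 : l y' z ↔ l y' v) (hab : l v y ↔ l v z) :
    ((l v y ∧ l y z ∧ l z y') ∨ (l y' z ∧ l z y ∧ l y v)) ∧ (l y y' ↔ l v y') := by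
  by_cases b1 : l v y
  · have b2 := h1.mp b1
    have b3 := h3.mpr (hab.mp b1)
    have b4 : l z y' := (h.neg m6).mpr fun h' => (h.neg m2).mp (h4.mp h') b2
    exact ⟨Or.inl ⟨b1, b3, b4⟩, iff_of_true (h.2.1 _ _ _ b3 b4) b2⟩
  · have b2 : ¬ l v y' := fun h' => b1 (h1.mpr h')
    have b3 : l z y := (h.neg m5).mpr fun h' => b1 (hab.mpr (h3.mp h'))
    have b4 : l y' z := h4.mpr ((h.neg m2).mpr b2)
    refine ⟨Or.inr ⟨b4, b3, (h.neg m1).mpr b1⟩, iff_of_false (fun h' => ?_) b2⟩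
    exact (h.neg m4).mp (h.2.1 _ _ _ b4 b3) h'

theorem SLO.ordNe {l : M → M → Prop} (h : SLO l) {v y y' z : M} (m2 : v ≠ y')
    (m5 : y ≠ z) (m6 : y' ≠ z) (m4 : y ≠ y') (m1 : v ≠ y) (m3 : v ≠ z)
    (h1 : l v y ↔ l v y') (h3 : l y z ↔ l v z)
    (h4 : l y' z ↔ l y' v) (hab : ¬ (l v y ↔ l v z)) :
    (l z v ∧ l v y' ∧ l y' y) ∨ (l y y' ∧ l y' v ∧ l v z) ∨ (l y y' ↔ l v y') := by
  by_cases b1 : l v y
  · have b2 := h1.mp b1
    have b3 : ¬ l v z := fun h' => hab (iff_of_true b1 h')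
    by_cases b4 : l y y'
    · exact Or.inr (Or.inr (iff_of_true b4 b2))
    · exact Or.inl ⟨(h.neg m3).mpr b3, b2, (h.neg m4).mpr b4⟩
  · have b2 : ¬ l v y' := fun h' => b1 (h1.mpr h')
    have b3 : l v z := by
      by_contra h'
      exact hab (iff_of_false b1 h')
    by_cases b4 : l y y'
    · exact Or.inr (Or.inl ⟨b4, (h.neg m2).mpr b2, b3⟩)
    · exact Or.inr (Or.inr (iff_of_false b4 b2))

/-- the pair of two orders as a labelling -/
def tau2 (l1 l2 : M → M → Prop) (x y : M) : (Prop × Prop) × (Prop × Prop) :=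
  ((l1 x y, l1 y x), (l2 x y, l2 y x))

theorem tau2_eq {l1 l2 : M → M → Prop} (h1 : SLO l1) (h2 : SLO l2) {x y x' y' : M} (h : x ≠ y)
    (h' : x' ≠ y') : tau2 l1 l2 x y = tau2 l1 l2 x' y' ↔
      (l1 x y ↔ l1 x' y') ∧ (l2 x y ↔ l2 x' y') := by
  simp only [tau2, Prod.mk.injEq, eq_iff_iff, h1.neg h, h1.neg h', h2.neg h, h2.neg h',
    not_iff_not, and_self]

/-- Two linear orders without the patterns 2413 and 3142 (separable permutations) have no
primitive subset with at least three elements. -/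
theorem separable {l1 l2 : M → M → Prop} (h1 : SLO l1) (h2 : SLO l2)
    (hA : ∀ a b c d, l1 a b → l1 b c → l1 c d → ¬ (l2 c a ∧ l2 a d ∧ l2 d b))
    (hB : ∀ a b c d, l1 a b → l1 b c → l1 c d → ¬ (l2 b d ∧ l2 d a ∧ l2 a c))
    {R : Set M} (hR : IsPrim (tau2 l1 l2) R) {a b c : M}
    (ha : a ∈ R) (hb : b ∈ R) (hc : c ∈ R) (hab : a ≠ b) (hac : a ≠ c) (hbc : b ≠ c) :
    False := by
  have hrev : Rev (tau2 l1 l2) := by
    intro x y x' y' h
    simp only [tau2, Prod.mk.injEq] at h ⊢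
    exact ⟨⟨h.1.2, h.1.1⟩, h.2.2, h.2.1⟩
  refine not_prim_of hrev hR ha hb hc hab hac hbc ?_ ?_
  · intro x _ y _ z _ hxy hxz hyz
    rw [tau2_eq h1 h2 hxy hxz, tau2_eq h1 h2 hxy.symm hyz, tau2_eq h1 h2 hxz.symm hyz.symm]
    rcases h1.two hxy hxz hyz with ⟨e, f⟩ | ⟨e, f⟩ | ⟨e, f⟩
    · rcases h2.two hxy hxz hyz with ⟨e', f'⟩ | ⟨e', f'⟩ | ⟨e', f'⟩
      · exact Or.inl ⟨e, e'⟩
      · exact Or.inl ⟨e, e'⟩
      · exact Or.inr (Or.inl ⟨f, e'⟩)
    · rcases h2.two hxy hxz hyz with ⟨e', f'⟩ | ⟨e', f'⟩ | ⟨e', f'⟩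
      · exact Or.inl ⟨e, e'⟩
      · exact Or.inl ⟨e, e'⟩
      · exact Or.inr (Or.inr ⟨f, f'⟩)
    · rcases h2.two hxy hxz hyz with ⟨e', f'⟩ | ⟨e', f'⟩ | ⟨e', f'⟩
      · exact Or.inr (Or.inl ⟨e, f'⟩)
      · exact Or.inr (Or.inr ⟨f, f'⟩)
      · exact Or.inr (Or.inl ⟨e, e'⟩)
  · intro v _ y _ y' _ z _ m1 m2 m3 m4 m5 m6 g1 g2 g3 g4 g5
    rw [tau2_eq h1 h2 m1 m2] at g1
    rw [Ne, tau2_eq h1 h2 m1 m3] at g2
    rw [tau2_eq h1 h2 m5 m3] at g3
    rw [tau2_eq h1 h2 m6 m2.symm] at g4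
    rw [Ne, tau2_eq h1 h2 m5.symm m6.symm] at g5
    rw [tau2_eq h1 h2 m4 m2]
    have key : ∀ {l : M → M → Prop}, SLO l → (l v y ↔ l v y') → (l y z ↔ l v z) →
        (l y' z ↔ l y' v) → ((l z y ↔ l z y') ↔ ¬ (l v y ↔ l v z)) := by
      intro l hl k1 k3 k4
      rw [hl.neg m5, hl.neg m6, k3, k4, hl.neg m2, k1]
      by_cases b1 : l v y' <;> by_cases b2 : l v z <;> simp [b1, b2]
    have k1 := key h1 g1.1 g3.1 g4.1
    have k2 := key h2 g1.2 g3.2 g4.2
    by_cases c1 : (l1 v y ↔ l1 v z) <;> by_cases c2 : (l2 v y ↔ l2 v z)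
    · exact absurd ⟨c1, c2⟩ g2
    · obtain ⟨o1, o1'⟩ := h1.ordEq m2 m5 m6 m4 m1 m3 g1.1 g3.1 g4.1 c1
      refine ⟨o1', ?_⟩
      rcases h2.ordNe m2 m5 m6 m4 m1 m3 g1.2 g3.2 g4.2 c2 with o2 | o2 | o2
      · exfalso
        rcases o1 with o1 | o1
        · exact hA v y z y' o1.1 o1.2.1 o1.2.2 ⟨o2.1, o2.2.1, o2.2.2⟩
        · exact hB y' z y v o1.1 o1.2.1 o1.2.2 ⟨o2.1, o2.2.1, o2.2.2⟩
      · exfalso
        rcases o1 with o1 | o1
        · exact hB v y z y' o1.1 o1.2.1 o1.2.2 ⟨o2.1, o2.2.1, o2.2.2⟩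
        · exact hA y' z y v o1.1 o1.2.1 o1.2.2 ⟨o2.1, o2.2.1, o2.2.2⟩
      · exact o2
    · obtain ⟨o1, o1'⟩ := h2.ordEq m2 m5 m6 m4 m1 m3 g1.2 g3.2 g4.2 c2
      refine ⟨?_, o1'⟩
      rcases h1.ordNe m2 m5 m6 m4 m1 m3 g1.1 g3.1 g4.1 c1 with o2 | o2 | o2
      · exfalso
        rcases o1 with o1 | o1
        · exact hB z v y' y o2.1 o2.2.1 o2.2.2 ⟨o1.1, o1.2.1, o1.2.2⟩
        · exact hA z v y' y o2.1 o2.2.1 o2.2.2 ⟨o1.1, o1.2.1, o1.2.2⟩
      · exfalso
        rcases o1 with o1 | o1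
        · exact hA y y' v z o2.1 o2.2.1 o2.2.2 ⟨o1.1, o1.2.1, o1.2.2⟩
        · exact hB y y' v z o2.1 o2.2.1 o2.2.2 ⟨o1.1, o1.2.1, o1.2.2⟩
      · exact o2
    · exact absurd ⟨k1.mpr c1, k2.mpr c2⟩ g5

/-- **Vaught's conjecture for pairs of linear orders without the patterns 2413 and 3142**
(separable permutations), with any number of unary predicates. -/
theorem dich_separable (hc : Countable L.Symbols) (hrel : ∀ n, IsEmpty (L.Functions n))
    (hL : ∀ n, n ≠ 1 → n ≠ 2 → IsEmpty (L.Relations n)) (T : L.Theory) (φ : FmI L 0)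
    (r s : L.Relations 2) (hr : ∀ R : L.Relations 2, R = r ∨ R = s)
    (h : ∀ S : L.Structure ℕ, IsMod T φ S →
      SLO (fun x y => S.RelMap r ![x, y]) ∧ SLO (fun x y => S.RelMap s ![x, y]) ∧
      (∀ a b c d, S.RelMap r ![a, b] → S.RelMap r ![b, c] → S.RelMap r ![c, d] →
        ¬ (S.RelMap s ![c, a] ∧ S.RelMap s ![a, d] ∧ S.RelMap s ![d, b]) ∧
        ¬ (S.RelMap s ![b, d] ∧ S.RelMap s ![d, a] ∧ S.RelMap s ![a, c]))) :
    Dich L T φ := by
  refine TR.dichotomy_of_sparsePrim hc hrel hL T φ fun S hS => ?_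
  obtain ⟨h1, h2, h3⟩ := h S hS
  intro P hPi hprim
  exfalso
  obtain ⟨a, ha, b, hb, c, hc, n1, n2, n3⟩ := exists_three hPi
  refine separable h1 h2 (fun a b c d x y z => (h3 a b c d x y z).1)
    (fun a b c d x y z => (h3 a b c d x y z).2)
    (R := P) (hprim.congr ?_) ha hb hc n1 n2 n3
  intro z x x' m1 m2 e
  simp only [tau2, Prod.mk.injEq] at e
  refine Prod.ext ?_ ?_
  · ext R
    rcases hr R with rfl | rfl
    · exact iff_of_eq e.1.1
    · exact iff_of_eq e.2.1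
  · ext R
    rcases hr R with rfl | rfl
    · exact iff_of_eq e.1.2
    · exact iff_of_eq e.2.2

end Pool.Agent.Helper97.LO.Cor
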