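import Pool.Agent.VB.C

/-!
# Composition along an index structure

`π₁ : M₁ → I₁` and `π₂ : M₂ → I₂` divide the structures `S₁`, `S₂` in parts; the parts are matched
along a back-and-forth play between the index structures `T₁` and `T₂`.
-/

set_option autoImplicit false
set_option linter.unusedSectionVars false
set_option linter.unusedVariables false

namespace Pool.Agent.Helper97.LO

open Set Pool.Agent.Helper5.DU Pool.Agent.Helper6.Str Pool.Agent.Helper79.VC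
  Pool.Agent.Helper97.VC

variable {L L' : FirstOrder.Language.{0, 0}} {M₁ M₂ I₁ I₂ : Type}

namespace Dyn

/-- The positions of the composed play: a play between the index structures, and plays between
the matched parts. -/
structure J (S₁ : L.Structure M₁) (S₂ : L.Structure M₂) (π₁ : M₁ → I₁) (π₂ : M₂ → I₂)
    (T₁ : L'.Structure I₁) (T₂ : L'.Structure I₂) (U₁ : Set I₁) (U₂ : Set I₂) (γ : Ordinal.{0})
    (p : Set (M₁ × M₂)) (q : Set (I₁ × I₂)) : Prop where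
  fin : p.Finite
  fq : q.Finite
  idx : BFR T₁ T₂ U₁ U₂ γ q
  mem : ∀ c ∈ q, c.1 ∈ U₁ ∧ c.2 ∈ U₂
  pq : ∀ a ∈ p, (π₁ a.1, π₂ a.2) ∈ q
  part : ∀ c ∈ q, BFR S₁ S₂ {x | π₁ x = c.1} {y | π₂ y = c.2} γ {a ∈ p | π₁ a.1 = c.1}

/-- the atomic facts are determined by those in the parts and the index play -/
def AtRule (S₁ : L.Structure M₁) (S₂ : L.Structure M₂) (π₁ : M₁ → I₁) (π₂ : M₂ → I₂)
    (T₁ : L'.Structure I₁) (T₂ : L'.Structure I₂) : Prop :=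
  ∀ (p : Set (M₁ × M₂)) (q : Set (I₁ × I₂)), p.Finite → q.Finite → AtEq T₁ T₂ q →
    (∀ a ∈ p, (π₁ a.1, π₂ a.2) ∈ q) →
    (∀ c ∈ q, AtEq S₁ S₂ {a ∈ p | π₁ a.1 = c.1}) → AtEq S₁ S₂ p

/-- parts over atomically equivalent indices are equivalent at all countable levels -/
def PartRule (S₁ : L.Structure M₁) (S₂ : L.Structure M₂) (π₁ : M₁ → I₁) (π₂ : M₂ → I₂)
    (T₁ : L'.Structure I₁) (T₂ : L'.Structure I₂) (U₁ : Set I₁) (U₂ : Set I₂) : Prop :=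
  ∀ i ∈ U₁, ∀ j ∈ U₂, AtEq T₁ T₂ {(i, j)} → ∀ γ < om1,
    BFR S₁ S₂ {x | π₁ x = i} {y | π₂ y = j} γ ∅

variable {S₁ : L.Structure M₁} {S₂ : L.Structure M₂} {π₁ : M₁ → I₁} {π₂ : M₂ → I₂}
    {T₁ : L'.Structure I₁} {T₂ : L'.Structure I₂} {U₁ : Set I₁} {U₂ : Set I₂}

theorem J.mono {γ β : Ordinal.{0}} {p : Set (M₁ × M₂)} {q : Set (I₁ × I₂)}
    (h : J S₁ S₂ π₁ π₂ T₁ T₂ U₁ U₂ γ p q) (hβ : β ≤ γ) :
    J S₁ S₂ π₁ π₂ T₁ T₂ U₁ U₂ β p q :=
  ⟨h.fin, h.fq, h.idx.mono hβ, h.mem, h.pq, fun c hc => (h.part c hc).mono hβ⟩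

theorem J.swap {γ : Ordinal.{0}} {p : Set (M₁ × M₂)} {q : Set (I₁ × I₂)}
    (h : J S₁ S₂ π₁ π₂ T₁ T₂ U₁ U₂ γ p q) :
    J S₂ S₁ π₂ π₁ T₂ T₁ U₂ U₁ γ (Prod.swap ⁻¹' p) (Prod.swap ⁻¹' q) := by
  refine ⟨?_, ?_, h.idx.swap, fun c hc => ?_, fun a ha => h.pq _ ha, fun c hc => ?_⟩
  · have := h.fin.image Prod.swap
    rwa [Set.image_swap_eq_preimage_swap] at this
  · have := h.fq.image Prod.swap
    rwa [Set.image_swap_eq_preimage_swap] at this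
  · exact ⟨(h.mem _ hc).2, (h.mem _ hc).1⟩
  · refine BFR.anti ?_ (h.part _ hc).swap
    rintro ⟨y, x⟩ ⟨ha, hay⟩
    have ha' : (x, y) ∈ p := ha
    have hc' : (c.2, c.1) ∈ q := hc
    have h1 := h.pq _ ha'
    have h2 : π₂ y = c.1 := hay
    refine ⟨ha', ?_⟩
    exact (h.idx.atEq.1 _ h1 _ hc').mpr h2

/-- **One step.** -/
theorem J.forth (hP : PartRule S₁ S₂ π₁ π₂ T₁ T₂ U₁ U₂) {γ β : Ordinal.{0}} (hγ : γ < om1)
    (hβ : β < γ) {p : Set (M₁ × M₂)} {q : Set (I₁ × I₂)}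
    (h : J S₁ S₂ π₁ π₂ T₁ T₂ U₁ U₂ γ p q) {x : M₁} (hx : π₁ x ∈ U₁) :
    ∃ (y : M₂) (q' : Set (I₁ × I₂)), q ⊆ q' ∧ π₂ y ∈ U₂ ∧
      J S₁ S₂ π₁ π₂ T₁ T₂ U₁ U₂ β (insert (x, y) p) q' := by
  by_cases hi : ∃ j, (π₁ x, j) ∈ q
  · obtain ⟨j, hj⟩ := hi
    obtain ⟨y, hy, h1⟩ := (h.part _ hj).forth hβ (x := x) rfl
    have hyj : π₂ y = j := hy
    refine ⟨y, q, Subset.rfl, hyj ▸ (h.mem _ hj).2, h.fin.insert _, h.fq, h.idx.mono hβ.le,
      h.mem, ?_, fun c hc => ?_⟩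
    · rintro a (rfl | ha)
      · show (π₁ x, π₂ y) ∈ q
        rw [hyj]
        exact hj
      · exact h.pq a ha
    · by_cases hcx : π₁ x = c.1
      · have hc2 : j = c.2 := (h.idx.atEq.1 _ hj _ hc).mp hcx
        have e1 : ({z | π₁ z = (π₁ x, j).1} : Set M₁) = {z | π₁ z = c.1} := by
          rw [← hcx]
        have e2 : ({z | π₂ z = (π₁ x, j).2} : Set M₂) = {z | π₂ z = c.2} := by
          rw [← hc2]
        rw [e1, e2] at h1
        refine BFR.anti ?_ h1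
        rintro a ⟨rfl | ha, hac⟩
        · exact mem_insert _ _
        · refine mem_insert_of_mem _ ⟨ha, ?_⟩
          show π₁ a.1 = π₁ x
          rw [hcx]
          exact hac
      · refine BFR.anti ?_ ((h.part c hc).mono hβ.le)
        rintro a ⟨rfl | ha, hac⟩
        · exact absurd hac hcx
        · exact ⟨ha, hac⟩
  · push Not at hi
    obtain ⟨j, hj, h1⟩ := h.idx.forth hβ hx
    have hat := h1.atEq
    have hnew : AtEq T₁ T₂ {(π₁ x, j)} := AtEq.anti (by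
      rintro a rfl
      exact mem_insert _ _) hat
    have hb1 : β + 1 < om1 := add_one_lt_om1 (hβ.trans hγ)
    obtain ⟨y, hy, h2⟩ := (hP _ hx j hj hnew _ hb1).forth (lt_add_one_self β) (x := x) rfl
    have hyj : π₂ y = j := hy
    refine ⟨y, insert (π₁ x, j) q, subset_insert _ _, hyj ▸ hj, h.fin.insert _, h.fq.insert _,
      h1, ?_, ?_, ?_⟩
    · rintro c (rfl | hc)
      · exact ⟨hx, hj⟩
      · exact h.mem c hc
    · rintro a (rfl | ha)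
      · show (π₁ x, π₂ y) ∈ _
        rw [hyj]
        exact mem_insert _ _
      · exact mem_insert_of_mem _ (h.pq a ha)
    · rintro c (rfl | hc)
      · refine BFR.anti ?_ h2
        rintro a ⟨rfl | ha, hac⟩
        · exact mem_insert _ _
        · exfalso
          have h3 := h.pq a ha
          have h4 : π₁ a.1 = π₁ x := hac
          rw [h4] at h3
          exact hi _ h3
      · refine BFR.anti ?_ ((h.part c hc).mono hβ.le)
        rintro a ⟨rfl | ha, hac⟩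
        · exfalso
          have h3 : π₁ x = c.1 := hac
          exact hi c.2 (h3 ▸ hc)
        · exact ⟨ha, hac⟩

theorem PartRule.swap (hP : PartRule S₁ S₂ π₁ π₂ T₁ T₂ U₁ U₂) :
    PartRule S₂ S₁ π₂ π₁ T₂ T₁ U₂ U₁ := by
  intro i hi j hj hat γ hγ
  refine (hP j hj i hi ?_ γ hγ).symm fun a ha => absurd ha (notMem_empty a)
  refine ⟨fun a ha b hb => ?_, fun n R v hv => ?_⟩
  · exact (hat.1 a.swap (by rw [mem_singleton_iff] at ha ⊢; rw [ha]; rfl) b.swap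
      (by rw [mem_singleton_iff] at hb ⊢; rw [hb]; rfl)).symm
  · exact (hat.2 n R (fun k => (v k).swap) fun k => by
      have := hv k
      rw [mem_singleton_iff] at this ⊢
      rw [this]; rfl).symm

theorem J.back (hP : PartRule S₁ S₂ π₁ π₂ T₁ T₂ U₁ U₂) {γ β : Ordinal.{0}} (hγ : γ < om1)
    (hβ : β < γ) {p : Set (M₁ × M₂)} {q : Set (I₁ × I₂)}
    (h : J S₁ S₂ π₁ π₂ T₁ T₂ U₁ U₂ γ p q) {y : M₂} (hy : π₂ y ∈ U₂) :
    ∃ (x : M₁) (q' : Set (I₁ × I₂)), q ⊆ q' ∧ π₁ x ∈ U₁ ∧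
      J S₁ S₂ π₁ π₂ T₁ T₂ U₁ U₂ β (insert (x, y) p) q' := by
  obtain ⟨x, q', h1, h2, h3⟩ := h.swap.forth hP.swap hγ hβ (x := y) hy
  refine ⟨x, Prod.swap ⁻¹' q', fun c hc => h1 (by simpa using hc), h2, ?_⟩
  have h4 := h3.swap
  have e : Prod.swap ⁻¹' (insert (y, x) (Prod.swap ⁻¹' p)) = insert (x, y) p := by
    ext ⟨a, b⟩
    simp only [mem_preimage, mem_insert_iff, Prod.swap_prod_mk, Prod.mk.injEq]
    tauto
  rwa [e] at h4

/-- **Composition along an index structure.** -/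
theorem J.bfr (hA : AtRule S₁ S₂ π₁ π₂ T₁ T₂) (hP : PartRule S₁ S₂ π₁ π₂ T₁ T₂ U₁ U₂)
    (γ : Ordinal.{0}) : γ < om1 → ∀ {p : Set (M₁ × M₂)} {q : Set (I₁ × I₂)},
      J S₁ S₂ π₁ π₂ T₁ T₂ U₁ U₂ γ p q →
      BFR S₁ S₂ {x | π₁ x ∈ U₁} {y | π₂ y ∈ U₂} γ p := by
  induction γ using WellFoundedLT.induction with
  | _ γ ih =>
    intro hγ p q h
    rw [BFR.def]
    refine ⟨hA p q h.fin h.fq h.idx.atEq h.pq fun c hc => (h.part c hc).atEq,
      fun β hβ => ⟨fun x hx => ?_, fun y hy => ?_⟩⟩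
    · obtain ⟨y, q', -, h2, h3⟩ := h.forth hP hγ hβ (x := x) hx
      exact ⟨y, h2, ih β hβ (hβ.trans hγ) h3⟩
    · obtain ⟨x, q', -, h2, h3⟩ := h.back hP hγ hβ (y := y) hy
      exact ⟨x, h2, ih β hβ (hβ.trans hγ) h3⟩

end Dyn

end Pool.Agent.Helper97.LO
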