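import Mathlib

/-!
# Germs of additive labellings

`lab` is an additive labelling of the pairs `x < y` of a linearly (pre)ordered set `I` without last
element, with values in a finite semigroup.
-/

set_option autoImplicit false
set_option linter.unusedSectionVars false
set_option linter.unusedVariables false

namespace Pool.Agent.Helper97.LO.Germ

open Set

variable {M F X : Type} [Preorder M]

/-- cofinally many elements of `I` have the property `P` -/
def Cof (I : Set M) (P : M → Prop) : Prop := ∀ w ∈ I, ∃ w' ∈ I, w < w' ∧ P w'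

/-- a total preorder without last element -/
structure Unb (I : Set M) : Prop where
  tot : ∀ a ∈ I, ∀ b ∈ I, a ≤ b ∨ b ≤ a
  ne : I.Nonempty
  last : ∀ y ∈ I, ∃ z ∈ I, y < z

theorem Unb.lt_or_le {I : Set M} (h : Unb I) {a b : M} (ha : a ∈ I) (hb : b ∈ I) :
    a < b ∨ b ≤ a := by
  rcases h.tot b hb a ha with h1 | h1
  · exact Or.inr h1
  · by_cases h2 : b ≤ a
    · exact Or.inr h2
    · exact Or.inl (lt_of_le_not_ge h1 h2)

/-- an upper bound of two elements -/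
theorem Unb.exists_gt₂ {I : Set M} (h : Unb I) {a b : M} (ha : a ∈ I) (hb : b ∈ I) :
    ∃ c ∈ I, a < c ∧ b < c := by
  rcases h.tot a ha b hb with h1 | h1
  · obtain ⟨c, hc, hbc⟩ := h.last b hb
    exact ⟨c, hc, lt_of_le_of_lt h1 hbc, hbc⟩
  · obtain ⟨c, hc, hac⟩ := h.last a ha
    exact ⟨c, hc, hac, lt_of_le_of_lt h1 hac⟩

/-- the values of a function with finitely many values eventually recur -/
theorem exists_recur [Finite X] {I : Set M} (h : Unb I) (f : M → X) :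
    ∃ w0 ∈ I, ∀ w ∈ I, w0 < w → Cof I fun w' => f w' = f w := by
  classical
  have h1 : ∀ v : X, ∃ w ∈ I, (Cof I fun w' => f w' = v) ∨ ∀ w' ∈ I, w < w' → f w' ≠ v := by
    intro v
    by_cases hv : Cof I fun w' => f w' = v
    · obtain ⟨w, hw⟩ := h.ne
      exact ⟨w, hw, Or.inl hv⟩
    · unfold Cof at hv
      push Not at hv
      obtain ⟨w, hw, hv⟩ := hv
      exact ⟨w, hw, Or.inr hv⟩
  choose b hb hb' using h1
  have hmax : ∀ T : Set X, T.Finite → ∃ w0 ∈ I, ∀ v ∈ T, b v ≤ w0 := by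
    intro T hT
    induction T, hT using Set.Finite.induction_on with
    | empty =>
      obtain ⟨w, hw⟩ := h.ne
      exact ⟨w, hw, fun v hv => absurd hv (notMem_empty v)⟩
    | @insert v T _ _ ih =>
      obtain ⟨w0, hw0, hT⟩ := ih
      obtain ⟨c, hc, h1, h2⟩ := h.exists_gt₂ hw0 (hb v)
      refine ⟨c, hc, ?_⟩
      rintro u (rfl | hu)
      · exact h2.le
      · exact (hT u hu).trans h1.le
  obtain ⟨w0, hw0, hw0'⟩ := hmax univ (toFinite _)
  refine ⟨w0, hw0, fun w hw hlt => ?_⟩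
  rcases hb' (f w) with h1 | h1
  · exact h1
  · exact absurd rfl (h1 w hw (lt_of_le_of_lt (hw0' _ (mem_univ _)) hlt))

/-- one of the finitely many values of `f` occurs cofinally among the elements with `P` -/
theorem Cof.split [Finite X] {I : Set M} (h : Unb I) {P : M → Prop} (hP : Cof I P) (f : M → X) :
    ∃ v, Cof I fun w => P w ∧ f w = v := by
  classical
  by_contra hcon
  push Not at hcon
  obtain ⟨w0, hw0, hrec⟩ := exists_recur h fun w => (f w, decide (P w))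
  obtain ⟨w, hw, hlt, hPw⟩ := hP w0 hw0
  refine hcon (f w) fun u hu => ?_
  obtain ⟨w', hw', h1, h2⟩ := hrec w hw hlt u hu
  obtain ⟨h3, h4⟩ := Prod.mk.inj h2
  refine ⟨w', hw', h1, ?_, h3⟩
  simpa [hPw] using h4

theorem Cof.mono {I : Set M} {P Q : M → Prop} (h : Cof I P) (hPQ : ∀ w ∈ I, P w → Q w) :
    Cof I Q := by
  intro w hw
  obtain ⟨w', hw', h1, h2⟩ := h w hw
  exact ⟨w', hw', h1, hPQ w' hw' h2⟩

/-- cofinally many elements also lie above a given one -/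
theorem Cof.above {I : Set M} (h : Unb I) {P : M → Prop} (hP : Cof I P) {a : M} (ha : a ∈ I) :
    Cof I fun w => P w ∧ a < w := by
  intro w hw
  obtain ⟨c, hc, h1, h2⟩ := h.exists_gt₂ hw ha
  obtain ⟨w', hw', h3, h4⟩ := hP c hc
  exact ⟨w', hw', h1.trans h3, h4, h2.trans h3⟩

/-- the labels from `y` which occur cofinally -/
def Cs (I : Set M) (lab : M → M → F) (y : M) : Set F := {s | Cof I fun w => y < w ∧ lab y w = s}

variable [Semigroup F] [Finite F] {I : Set M} {lab : M → M → F}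

/-- additivity on `I` -/
def Add (I : Set M) (lab : M → M → F) : Prop :=
  ∀ a ∈ I, ∀ b ∈ I, ∀ c ∈ I, a < b → b < c → lab a c = lab a b * lab b c

theorem Cs_nonempty (h : Unb I) {y : M} (hy : y ∈ I) : (Cs I lab y).Nonempty := by
  have h1 : Cof I fun w => y < w := by
    intro w hw
    obtain ⟨c, hc, h1, h2⟩ := h.exists_gt₂ hw hy
    exact ⟨c, hc, h1, h2⟩
  obtain ⟨v, hv⟩ := h1.split h (lab y)
  exact ⟨v, hv⟩

theorem Cs_mul (h : Unb I) (hadd : Add I lab) {y y' : M} (hy : y ∈ I) (hy' : y' ∈ I)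
    (hlt : y < y') {s : F} (hs : s ∈ Cs I lab y') : lab y y' * s ∈ Cs I lab y := by
  refine Cof.mono hs ?_
  rintro w hw ⟨h1, rfl⟩
  exact ⟨hlt.trans h1, hadd y hy y' hy' w hw hlt h1⟩

theorem exists_Cs (h : Unb I) (hadd : Add I lab) {y y' : M} (hy : y ∈ I) (hy' : y' ∈ I)
    (hlt : y < y') {s : F} (hs : s ∈ Cs I lab y) : ∃ s' ∈ Cs I lab y', lab y y' * s' = s := by
  have h1 : Cof I fun w => (y < w ∧ lab y w = s) ∧ y' < w := hs.above h hy'
  obtain ⟨v, hv⟩ := h1.split h (lab y')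
  refine ⟨v, hv.mono fun w hw hw' => ⟨hw'.1.2, hw'.2⟩, ?_⟩
  obtain ⟨w0, hw0⟩ := h.ne
  obtain ⟨w, hw, -, ⟨⟨h2, h3⟩, h4⟩, h5⟩ := hv w0 hw0
  rw [← h3, ← h5]
  exact (hadd y hy y' hy' w hw hlt h4).symm

theorem image_Cs (h : Unb I) (hadd : Add I lab) {y y' : M} (hy : y ∈ I) (hy' : y' ∈ I)
    (hlt : y < y') : (fun s => lab y y' * s) '' Cs I lab y' = Cs I lab y := by
  apply Subset.antisymm
  · rintro _ ⟨s, hs, rfl⟩
    exact Cs_mul h hadd hy hy' hlt hs
  · intro s hs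
    obtain ⟨s', hs', h1⟩ := exists_Cs h hadd hy hy' hlt hs
    exact ⟨s', hs', h1⟩

/-- **Germs.** `y₁` is a base point: seen from any element above it, the labels of far elements
are determined by their labels from the base point, and the base point recurs. -/
structure IsBase (I : Set M) (lab : M → M → F) (y₁ : M) : Prop where
  mem : y₁ ∈ I
  inj : ∀ a ∈ I, y₁ < a → InjOn (fun s => lab y₁ a * s) (Cs I lab a)
  recur : Cof I fun w => y₁ < w ∧ ∀ k ∈ Cs I lab y₁, k ∈ Cs I lab w ∧ lab y₁ w * k = k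

theorem exists_base (h : Unb I) (hadd : Add I lab) (x : M) (hx : x ∈ I) :
    ∃ y₁, x < y₁ ∧ IsBase I lab y₁ := by
  classical
  -- an element with the maximal number of labels
  have hcard : ∀ y, (Cs I lab y).ncard ≤ Nat.card F := fun y => by
    have := Set.ncard_le_ncard (subset_univ (Cs I lab y)) (toFinite _)
    rwa [Set.ncard_univ] at this
  obtain ⟨y₀, hy₀, hmax⟩ : ∃ y₀ ∈ I, ∀ y ∈ I, (Cs I lab y).ncard ≤ (Cs I lab y₀).ncard := by
    have hne : (fun y => (Cs I lab y).ncard) '' I |>.Nonempty := h.ne.image _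
    have hbd : BddAbove ((fun y => (Cs I lab y).ncard) '' I) := by
      refine ⟨Nat.card F, ?_⟩
      rintro _ ⟨y, -, rfl⟩
      exact hcard y
    obtain ⟨y₀, hy₀, h1⟩ := Nat.sSup_mem hne hbd
    exact ⟨y₀, hy₀, fun y hy => by
      have := le_csSup hbd ⟨y, hy, rfl⟩
      rw [← h1] at this
      exact this⟩
  have hinj₀ : ∀ a ∈ I, y₀ < a → InjOn (fun s => lab y₀ a * s) (Cs I lab a) := by
    intro a ha hlt
    have h1 := image_Cs h hadd hy₀ ha hlt
    refine Set.injOn_of_ncard_image_eq ?_ (toFinite _)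
    rw [h1]
    refine le_antisymm ?_ (hmax a ha)
    rw [← h1]
    exact Set.ncard_image_le (toFinite _)
  -- the data seen from this element
  let f : M → F → F := fun y k =>
    if hk : ∃ s ∈ Cs I lab y, lab y₀ y * s = k then hk.choose else k
  obtain ⟨w0, hw0, hrec⟩ := exists_recur h f
  obtain ⟨c, hc, h1, h2⟩ := h.exists_gt₂ hw0 hy₀
  obtain ⟨y₁, hy₁, h3, h4⟩ := h.exists_gt₂ hc hx
  have hy₀₁ : y₀ < y₁ := h2.trans h3
  have hrec1 := (hrec y₁ hy₁ (h1.trans h3)).above h hy₁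
  have hfac : ∀ a ∈ I, y₁ < a → ∀ s, lab y₀ a * s = lab y₀ y₁ * (lab y₁ a * s) := by
    intro a ha hlt s
    rw [hadd y₀ hy₀ y₁ hy₁ a ha hy₀₁ hlt, mul_assoc]
  refine ⟨y₁, h4, hy₁, fun a ha hlt s hs s' hs' hss => ?_, hrec1.mono ?_⟩
  · refine hinj₀ a ha (hy₀₁.trans hlt) hs hs' ?_
    show lab y₀ a * s = lab y₀ a * s'
    rw [hfac a ha hlt, hfac a ha hlt]
    exact congrArg _ hss
  · rintro w hw ⟨h5, h6⟩
    refine ⟨h6, fun k hk => ?_⟩
    have hfv : ∀ y ∈ I, y₀ < y → ∀ s ∈ Cs I lab y, f y (lab y₀ y * s) = s := by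
      intro y hy hlt s hs
      have hex : ∃ s' ∈ Cs I lab y, lab y₀ y * s' = lab y₀ y * s := ⟨s, hs, rfl⟩
      show (if hk : ∃ s' ∈ Cs I lab y, lab y₀ y * s' = lab y₀ y * s then hk.choose else _) = s
      rw [dif_pos hex]
      exact hinj₀ y hy hlt hex.choose_spec.1 hs hex.choose_spec.2
    have e1 := hfv y₁ hy₁ hy₀₁ k hk
    have e2 : f w (lab y₀ y₁ * k) = k := by
      rw [h5]
      exact e1
    -- the value at `w`
    have hk0 : lab y₀ y₁ * k ∈ Cs I lab y₀ := Cs_mul h hadd hy₀ hy₁ hy₀₁ hk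
    obtain ⟨s, hs, hs'⟩ := exists_Cs h hadd hy₀ hw (hy₀₁.trans h6) hk0
    have e3 := hfv w hw (hy₀₁.trans h6) s hs
    rw [hs', e2] at e3
    subst e3
    refine ⟨hs, ?_⟩
    refine hinj₀ y₁ hy₁ hy₀₁ (Cs_mul h hadd hy₁ hw h6 hs) hk ?_
    show lab y₀ y₁ * (lab y₁ w * k) = lab y₀ y₁ * k
    rw [← hfac w hw h6, hs']

variable {y₁ : M}

open Classical in
/-- the label from `a` of the far elements whose label from the base point is `k` -/
noncomputable def hh (I : Set M) (lab : M → M → F) (y₁ : M) (k : F) (a : M) : F :=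
  if hk : ∃ s ∈ Cs I lab a, lab y₁ a * s = k then hk.choose else k

theorem hh_spec (h : Unb I) (hadd : Add I lab) (hb : IsBase I lab y₁) {a : M} (ha : a ∈ I)
    (hlt : y₁ < a) {k : F} (hk : k ∈ Cs I lab y₁) :
    hh I lab y₁ k a ∈ Cs I lab a ∧ lab y₁ a * hh I lab y₁ k a = k := by
  have hex := exists_Cs h hadd hb.mem ha hlt hk
  unfold hh
  rw [dif_pos hex]
  exact ⟨hex.choose_spec.1, hex.choose_spec.2⟩

theorem hh_eq (h : Unb I) (hadd : Add I lab) (hb : IsBase I lab y₁) {a : M} (ha : a ∈ I)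
    (hlt : y₁ < a) {k s : F} (hs : s ∈ Cs I lab a) (hsk : lab y₁ a * s = k) :
    hh I lab y₁ k a = s := by
  have hk : k ∈ Cs I lab y₁ := hsk ▸ Cs_mul h hadd hb.mem ha hlt hs
  obtain ⟨h1, h2⟩ := hh_spec h hadd hb ha hlt hk
  exact hb.inj a ha hlt h1 hs (h2.trans hsk.symm)

/-- the labels of far elements -/
theorem hh_far (h : Unb I) (hadd : Add I lab) (hb : IsBase I lab y₁) {a : M} (ha : a ∈ I)
    (hlt : y₁ < a) : ∃ w0 ∈ I, ∀ w ∈ I, w0 < w → a < w ∧ lab y₁ w ∈ Cs I lab y₁ ∧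
      lab a w = hh I lab y₁ (lab y₁ w) a := by
  obtain ⟨w1, hw1, hrec⟩ := exists_recur h (lab a)
  obtain ⟨w0, hw0, h1, h2⟩ := h.exists_gt₂ hw1 ha
  refine ⟨w0, hw0, fun w hw hlt' => ?_⟩
  have haw : a < w := h2.trans hlt'
  have hs : lab a w ∈ Cs I lab a :=
    ((hrec w hw (h1.trans hlt')).above h ha).mono fun u hu hu' => ⟨hu'.2, hu'.1⟩
  have e := hadd y₁ hb.mem a ha w hw hlt haw
  refine ⟨haw, ?_, (hh_eq h hadd hb ha hlt hs e.symm).symm⟩
  rw [e]
  exact Cs_mul h hadd hb.mem ha hlt hs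

/-- the data of `a` in terms of a recurrence of the base point -/
theorem hh_recur (h : Unb I) (hadd : Add I lab) (hb : IsBase I lab y₁) {a w : M} (ha : a ∈ I)
    (hlt : y₁ < a) (hw : w ∈ I) (haw : a < w) {k : F} (hkw : k ∈ Cs I lab w)
    (hk : lab y₁ w * k = k) : hh I lab y₁ k a = lab a w * k := by
  refine hh_eq h hadd hb ha hlt (Cs_mul h hadd ha hw haw hkw) ?_
  rw [← mul_assoc, ← hadd y₁ hb.mem a ha w hw hlt haw, hk]

theorem hh_step (h : Unb I) (hadd : Add I lab) (hb : IsBase I lab y₁) {a b : M} (ha : a ∈ I)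
    (hb' : b ∈ I) (hlt : y₁ < a) (hab : a < b) {k : F} (hk : k ∈ Cs I lab y₁) :
    hh I lab y₁ k a = lab a b * hh I lab y₁ k b := by
  obtain ⟨h1, h2⟩ := hh_spec h hadd hb hb' (hlt.trans hab) hk
  refine hh_eq h hadd hb ha hlt (Cs_mul h hadd ha hb' hab h1) ?_
  rw [← mul_assoc, ← hadd y₁ hb.mem a ha b hb' hlt hab, h2]

theorem hh_add (h : Unb I) (hadd : Add I lab) (hb : IsBase I lab y₁) {a e : M} (ha : a ∈ I)
    (he : e ∈ I) (hlt : y₁ < a) (hlte : y₁ < e) (hce : lab y₁ e ∈ Cs I lab y₁) {k : F}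
    (hk : k ∈ Cs I lab y₁) :
    hh I lab y₁ k a = hh I lab y₁ (lab y₁ e) a * hh I lab y₁ k e := by
  obtain ⟨w, hw, haw, h1, h2⟩ := hb.recur a ha
  obtain ⟨h3, h4⟩ := hh_spec h hadd hb he hlte hk
  rw [hh_recur h hadd hb ha hlt hw haw (h2 _ hce).1 (h2 _ hce).2,
    hh_recur h hadd hb ha hlt hw haw (h2 _ hk).1 (h2 _ hk).2, mul_assoc, h4]

theorem hh_add' (h : Unb I) (hadd : Add I lab) (hb : IsBase I lab y₁) {a e b : M} (ha : a ∈ I)
    (he : e ∈ I) (hb' : b ∈ I) (hlt : y₁ < a) (hlte : y₁ < e) (heb : e < b)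
    (hce : lab y₁ e ∈ Cs I lab y₁) (hcb : lab y₁ b ∈ Cs I lab y₁) :
    hh I lab y₁ (lab y₁ b) a = hh I lab y₁ (lab y₁ e) a * lab e b := by
  obtain ⟨w, hw, haw, h1, h2⟩ := hb.recur a ha
  rw [hh_recur h hadd hb ha hlt hw haw (h2 _ hce).1 (h2 _ hce).2,
    hh_recur h hadd hb ha hlt hw haw (h2 _ hcb).1 (h2 _ hcb).2, mul_assoc,
    ← hadd y₁ hb.mem e he b hb' hlte heb]

/-- labels to elements above `I` -/
theorem hh_above (h : Unb I) (hadd : Add I lab) (hb : IsBase I lab y₁) {w : M}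
    (hw : ∀ a ∈ I, ∀ b ∈ I, a < b → lab a w = lab a b * lab b w) :
    ∃ k ∈ Cs I lab y₁, ∃ s, ∀ a ∈ I, y₁ < a → lab a w = hh I lab y₁ k a * s := by
  have h1 : Cof I fun u => y₁ < u := by
    intro u hu
    obtain ⟨c, hc, h1, h2⟩ := h.exists_gt₂ hu hb.mem
    exact ⟨c, hc, h1, h2⟩
  obtain ⟨⟨k, s⟩, hv⟩ := h1.split h fun u => (lab y₁ u, lab u w)
  have hk : k ∈ Cs I lab y₁ := hv.mono fun u hu hu' => ⟨hu'.1, (Prod.mk.inj hu'.2).1⟩
  refine ⟨k, hk, s, fun a ha hlt => ?_⟩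
  obtain ⟨w0, hw0, hfar⟩ := hh_far h hadd hb ha hlt
  obtain ⟨u, hu, h2, h3, h4⟩ := hv w0 hw0
  obtain ⟨h5, h6⟩ := Prod.mk.inj h4
  obtain ⟨h7, h8, h9⟩ := hfar u hu h2
  rw [hw a ha u hu h7, h9, h5, h6]

end Pool.Agent.Helper97.LO.Germ
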