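import Pool.Agent.Helper68.VCM.Dyn
import Pool.Agent.Helper60.VCM.C2a

/-!
# Structures representing a copy of the quotient
-/

set_option autoImplicit false
set_option linter.unusedSectionVars false
set_option linter.unusedVariables false

namespace Pool.Agent.Helper97.LO

open Set Pool.Agent.Helper5.DU Pool.Agent.Helper6.Str Pool.Agent.Helper79.VC
  Pool.Agent.Helper97.VC

namespace Dyn

variable {L L' : FirstOrder.Language.{0, 0}} {M M' N N' N₁ N₂ N₁' N₂' P : Type}

theorem bfr_zero {S : L.Structure M} {T : L.Structure N} {U : Set M} {V : Set N}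
    {p : Set (M × N)} : BFR S T U V 0 p ↔ AtEq S T p := by
  rw [BFR.def]
  exact ⟨fun h => h.1, fun h => ⟨h, fun β hβ => absurd hβ (not_lt.mpr bot_le)⟩⟩

theorem atEq_trans {S : L.Structure M} {T : L.Structure N} {R : L.Structure P}
    {p : Set (M × N)} {q : Set (N × P)} {r : Set (M × P)} (h1 : AtEq S T p) (h2 : AtEq T R q)
    (hr : ∀ a ∈ r, ∃ b, (a.1, b) ∈ p ∧ (b, a.2) ∈ q) : AtEq S R r := by
  rw [← bfr_zero (U := univ) (V := univ)] at h1 h2 ⊢
  exact h1.trans h2 hr

theorem atEq_symm {S : L.Structure M} {T : L.Structure N}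
    {p : Set (M × N)} {q : Set (N × M)} (h : AtEq S T p) (hq : ∀ a ∈ q, (a.2, a.1) ∈ p) :
    AtEq T S q := by
  rw [← bfr_zero (U := univ) (V := univ)] at h ⊢
  exact h.symm hq

theorem bt_swap {S : L.Structure M} {T : L.Structure N} {x y : M} {x' y' : N}
    (h : bt S x y = bt T x' y') : bt S y x = bt T y' x' :=
  Prod.ext (congrArg Prod.snd h) (congrArg Prod.fst h)

theorem bt_of_atEq {S : L.Structure M} {T : L.Structure N} {x y : M} {x' y' : N}
    {p : Set (M × N)} (h : AtEq S T p) (hx : (x, x') ∈ p) (hy : (y, y') ∈ p) :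
    bt S x y = bt T x' y' := by
  have key : ∀ (a b : M × N), a ∈ p → b ∈ p → ∀ R : L.Relations 2,
      S.RelMap R ![a.1, b.1] ↔ T.RelMap R ![a.2, b.2] := by
    intro a b ha hb R
    have h1 := h.2 2 R ![a, b] (by
      intro i
      fin_cases i
      · exact ha
      · exact hb)
    have e1 : (fun i => (![a, b] i).1) = ![a.1, b.1] := by
      funext i
      fin_cases i <;> rfl
    have e2 : (fun i => (![a, b] i).2) = ![a.2, b.2] := by
      funext i
      fin_cases i <;> rfl
    rwa [e1, e2] at h1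
  refine Prod.ext ?_ ?_
  · ext R
    exact key (x, x') (y, y') hx hy R
  · ext R
    exact key (y, y') (x, x') hy hx R

/-- What is used of a quotient. -/
structure QH (S : L.Structure M) (S' : L'.Structure M') (π : M → M') : Prop where
  cls : ∀ p : Set (M' × M'), p.Finite → AtEq S' S' p →
    ∀ a ∈ p, BFI S S {z | π z = a.1} {z | π z = a.2} ∅
  bt : ∀ p : Set (M' × M'), p.Finite → AtEq S' S' p →
    ∀ x y x' y', (π x, π x') ∈ p → (π y, π y') ∈ p → π x ≠ π y → bt S x y = bt S x' y'

/-- `B a` is a countable set closed in the class of `a` at all levels -/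
structure BH (S : L.Structure M) (π : M → M') (B : M' → Set M) : Prop where
  ctbl : ∀ a, (B a).Countable
  sub : ∀ a, B a ⊆ {z | π z = a}
  clo : ∀ a, ∀ F : Finset M, (F : Set M) ⊆ B a → ∀ c, π c = a → ∃ d ∈ B a,
    BFI S S {z | π z = a} {z | π z = a} (insert (c, d) (dg (F : Set M)))

theorem exists_BH {S : L.Structure M} {π : M → M'} (ht : ∀ x, TameX S {y | π y = π x}) :
    ∃ B : M' → Set M, BH S π B := by
  have h : ∀ a : M', ∃ B : Set M, B.Countable ∧ B ⊆ {z | π z = a} ∧
      ∀ F : Finset M, (F : Set M) ⊆ B → ∀ c, π c = a → ∃ d ∈ B,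
        BFI S S {z | π z = a} {z | π z = a} (insert (c, d) (dg (F : Set M))) := by
    intro a
    by_cases ha : ∃ x, π x = a
    · obtain ⟨x, rfl⟩ := ha
      obtain ⟨B, h1, -, h3, h4⟩ := (ht x).exists_closed countable_empty (empty_subset _)
      exact ⟨B, h1, h3, fun F hF c hc => h4 F hF c hc⟩
    · push Not at ha
      exact ⟨∅, countable_empty, empty_subset _, fun F hF c hc => absurd hc (ha c)⟩
  choose B h1 h2 h3 using h
  exact ⟨B, h1, h2, h3⟩

theorem BH.bfr {S : L.Structure M} {π : M → M'} {B : M' → Set M} (hB : BH S π B) (a : M')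
    {γ : Ordinal.{0}} (hγ : γ < om1) : BFR S S {z | π z = a} (B a) γ ∅ := by
  have hclo : Clo S {z | π z = a} γ (B a) := by
    intro F hF c hc
    obtain ⟨d, hd, h⟩ := hB.clo a F (fun x hx => (hF hx).1) c hc
    exact ⟨d, ⟨hd, hB.sub a hd⟩, h γ hγ⟩
  have h1 := hclo.bfr (F := ∅) finite_empty (empty_subset _)
  have e : B a ∩ {z | π z = a} = B a := inter_eq_left.mpr (hB.sub a)
  rw [e] at h1
  exact BFR.anti (empty_subset _) h1

theorem BH.nonempty {S : L.Structure M} {π : M → M'} {B : M' → Set M} (hB : BH S π B)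
    (x : M) : (B (π x)).Nonempty := by
  obtain ⟨d, hd, -⟩ := hB.clo (π x) ∅ (by simp) x rfl
  exact ⟨d, hd⟩

/-- `S₁` (on `N`) represents the copy `T` (on `N'`) of the quotient; its part over `i` is a copy
of `B (A i)`. -/
structure Rep (S : L.Structure M) (S' : L'.Structure M') (π : M → M') (B : M' → Set M)
    (T : L'.Structure N') (S₁ : L.Structure N) (t : N → N') (z : N → M) (A : N' → M') : Prop where
  at1 : ∀ i, AtEq T S' {(i, A i)}
  zB : ∀ w, z w ∈ B (A (t w))
  inj : ∀ w w', t w = t w' → z w = z w' → w = w'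
  surj : ∀ i, ∀ b ∈ B (A i), ∃ w, t w = i ∧ z w = b
  rel : ∀ (n : ℕ) (R : L.Relations n) (v : Fin n → N), S₁.RelMap R v ↔
    ((∀ i j, t (v i) = t (v j)) ∧ S.RelMap R (fun i => z (v i))) ∨
    (¬ (∀ i j, t (v i) = t (v j)) ∧ ∃ u : Fin n → M,
      AtEq T S' (range fun i => (t (v i), π (u i))) ∧ S.RelMap R u)

variable {S : L.Structure M} {S' : L'.Structure M'} {π : M → M'} {B : M' → Set M}
  {T : L'.Structure N'} {S₁ : L.Structure N} {t : N → N'} {z : N → M} {A : N' → M'}

/-- relations between elements of the same part -/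
theorem Rep.rel_same (h : Rep S S' π B T S₁ t z A) {n : ℕ} (R : L.Relations n)
    (v : Fin n → N) (hv : ∀ i j, t (v i) = t (v j)) :
    S₁.RelMap R v ↔ S.RelMap R (fun i => z (v i)) := by
  rw [h.rel]
  constructor
  · rintro (h1 | h1)
    · exact h1.2
    · exact absurd hv h1.1
  · exact fun h1 => Or.inl ⟨hv, h1⟩

/-- relations between elements of different parts -/
theorem Rep.rel_diff (hQ : QH S S' π) (h : Rep S S' π B T S₁ t z A) {x y : N} {u w : M}
    (hne : t x ≠ t y) (hat : AtEq T S' {(t x, π u), (t y, π w)}) (R : L.Relations 2) :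
    S₁.RelMap R ![x, y] ↔ S.RelMap R ![u, w] := by
  have hnall : ¬ (∀ i j : Fin 2, t (![x, y] i) = t (![x, y] j)) := fun h' => hne (h' 0 1)
  have hrange : (range fun i : Fin 2 => (t (![x, y] i), π (![u, w] i))) =
      {(t x, π u), (t y, π w)} := by
    ext a
    constructor
    · rintro ⟨i, rfl⟩
      fin_cases i
      · exact Or.inl rfl
      · exact Or.inr rfl
    · rintro (rfl | rfl)
      · exact ⟨0, rfl⟩
      · exact ⟨1, rfl⟩
  rw [h.rel]
  constructor
  · rintro (h1 | ⟨-, u', hu', hR⟩)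
    · exact absurd h1.1 hnall
    · have h2 : AtEq S' S' {(π (u' 0), π u), (π (u' 1), π w)} := by
        refine atEq_trans (p := {(π (u' 0), t x), (π (u' 1), t y)}) (atEq_symm hu' ?_) hat ?_
        · rintro a (rfl | rfl)
          · exact ⟨0, rfl⟩
          · exact ⟨1, rfl⟩
        · rintro a (rfl | rfl)
          · exact ⟨t x, Or.inl rfl, Or.inl rfl⟩
          · exact ⟨t y, Or.inr rfl, Or.inr rfl⟩
      have hne' : π (u' 0) ≠ π (u' 1) := by
        intro h'
        have := (hu'.1 (t x, π (u' 0)) ⟨0, rfl⟩ (t y, π (u' 1)) ⟨1, rfl⟩).mpr h'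
        exact hne this
      have h3 := hQ.bt _ (toFinite _) h2 (u' 0) (u' 1) u w (Or.inl rfl) (Or.inr rfl) hne'
      have h4 : R ∈ (Pool.Agent.Helper97.LO.bt S (u' 0) (u' 1)).1 := by
        show S.RelMap R ![u' 0, u' 1]
        have e : ![u' 0, u' 1] = u' := by
          funext i
          fin_cases i <;> rfl
        rw [e]
        exact hR
      rw [h3] at h4
      exact h4
  · intro hR
    refine Or.inr ⟨hnall, ![u, w], ?_, hR⟩
    rw [hrange]
    exact hat

theorem Rep.bt_diff (hQ : QH S S' π) (h : Rep S S' π B T S₁ t z A) {x y : N} {u w : M}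
    (hne : t x ≠ t y) (hat : AtEq T S' {(t x, π u), (t y, π w)}) :
    Pool.Agent.Helper97.LO.bt S₁ x y = Pool.Agent.Helper97.LO.bt S u w := by
  refine Prod.ext ?_ ?_
  · ext R
    exact h.rel_diff hQ hne hat R
  · ext R
    refine h.rel_diff hQ hne.symm ?_ R
    rwa [pair_comm]

/-- the part over `i` -/
theorem Rep.part (hB : BH S π B) (h : Rep S S' π B T S₁ t z A) (i : N') {γ : Ordinal.{0}}
    (hγ : γ < om1) : BFR S₁ S {w | t w = i} {y | π y = A i} γ ∅ := by
  have h1 : BFR S₁ S {w | t w = i} (B (A i)) γ ∅ := by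
    refine BFR.of_map z ?_ ?_ ?_ γ fun a ha => absurd ha (notMem_empty a)
    · intro x hx y hy hxy
      have hx' : t x = i := hx
      have hy' : t y = i := hy
      exact h.inj x y (hx'.trans hy'.symm) hxy
    · ext b
      constructor
      · intro hb
        obtain ⟨w, hw1, hw2⟩ := h.surj i b hb
        exact ⟨w, hw1, hw2⟩
      · rintro ⟨w, hw, rfl⟩
        have hw' : t w = i := hw
        rw [← hw']
        exact h.zB w
    · intro n R v hv
      exact h.rel_same R v fun j k => (show t (v j) = i from hv j).trans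
        (show t (v k) = i from hv k).symm
  have h2 := (hB.bfr (A i) hγ).symm (q := ∅) fun a ha => absurd ha (notMem_empty a)
  exact h1.trans h2 fun a ha => absurd ha (notMem_empty a)

theorem Rep.partRule (hQ : QH S S' π) (hB : BH S π B) (h : Rep S S' π B T S₁ t z A) :
    PartRule S₁ S t π T S' univ univ := by
  intro i _ j _ hat γ hγ
  have h1 : AtEq S' S' {(A i, j)} := by
    refine atEq_trans (p := {(A i, i)}) (q := {(i, j)}) (atEq_symm (h.at1 i) ?_) hat ?_
    · rintro a rfl
      exact rfl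
    · rintro a rfl
      exact ⟨i, rfl, rfl⟩
  have h2 := hQ.cls _ (toFinite _) h1 (A i, j) rfl γ hγ
  exact (h.part hB i hγ).trans h2 fun a ha => absurd ha (notMem_empty a)

theorem Rep.atRule (hL : Ar2 L) (hQ : QH S S' π) (h : Rep S S' π B T S₁ t z A) :
    AtRule S₁ S t π T S' := by
  intro p q hp hq hat hpq hparts
  refine atEq_of_pairs hL fun a ha b hb => ?_
  by_cases hab : t a.1 = t b.1
  · refine AtEq.anti ?_ (hparts _ (hpq a ha))
    rintro c (rfl | rfl)
    · exact ⟨ha, rfl⟩
    · exact ⟨hb, hab.symm⟩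
  · have hne : π a.2 ≠ π b.2 := fun h' => hab ((hat.1 _ (hpq a ha) _ (hpq b hb)).mpr h')
    refine atEq_pair hL ?_ ?_ ?_ ?_
    · refine AtEq.anti ?_ (hparts _ (hpq a ha))
      rintro c rfl
      exact ⟨ha, rfl⟩
    · refine AtEq.anti ?_ (hparts _ (hpq b hb))
      rintro c rfl
      exact ⟨hb, rfl⟩
    · constructor
      · intro h'
        exact absurd (congrArg t h') hab
      · intro h'
        exact absurd (congrArg π h') hne
    · refine h.bt_diff hQ hab (AtEq.anti ?_ hat)
      rintro c (rfl | rfl)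
      · exact hpq a ha
      · exact hpq b hb


end Dyn

end Pool.Agent.Helper97.LO
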