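import Pool.Agent.Helper68.VCM.Rep

/-!
# Existence of representations, and how they determine the quotient
-/

set_option autoImplicit false
set_option linter.unusedSectionVars false
set_option linter.unusedVariables false

namespace Pool.Agent.Helper97.LO

open Set Pool.Agent.Helper5.DU Pool.Agent.Helper6.Str Pool.Agent.Helper79.VC
  Pool.Agent.Helper97.VC

namespace Dyn

variable {L L' : FirstOrder.Language.{0, 0}} {M M' N N' N₁ N₂ N₁' N₂' P : Type}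

/-- the image of a play under surjections -/
theorem bfr_image {S₁ : L.Structure N₁} {S₂ : L.Structure N₂} {T₁ : L'.Structure N₁'}
    {T₂ : L'.Structure N₂'} {t₁ : N₁ → N₁'} {t₂ : N₂ → N₂'} (h1 : Function.Surjective t₁)
    (h2 : Function.Surjective t₂) {κ : Ordinal.{0}}
    (H0 : ∀ p : Set (N₁ × N₂), p.Finite → BFR S₁ S₂ univ univ κ p →
      AtEq T₁ T₂ ((fun a => (t₁ a.1, t₂ a.2)) '' p)) (γ : Ordinal.{0}) :
    ∀ {p : Set (N₁ × N₂)}, p.Finite → BFR S₁ S₂ univ univ (κ + γ) p →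
      BFR T₁ T₂ univ univ γ ((fun a => (t₁ a.1, t₂ a.2)) '' p) := by
  induction γ using WellFoundedLT.induction with
  | _ γ ih =>
    intro p hp h
    rw [BFR.def]
    refine ⟨H0 p hp (h.mono le_self_add), fun β hβ => ⟨fun x _ => ?_, fun y _ => ?_⟩⟩
    · obtain ⟨u, rfl⟩ := h1 x
      obtain ⟨v, -, hv⟩ := h.forth (add_lt_add_right hβ κ) (mem_univ u)
      refine ⟨t₂ v, mem_univ _, ?_⟩
      have h3 := ih β hβ (hp.insert _) hv
      rwa [image_insert_eq] at h3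
    · obtain ⟨v, rfl⟩ := h2 y
      obtain ⟨u, -, hu⟩ := h.back (add_lt_add_right hβ κ) (mem_univ v)
      refine ⟨t₁ u, mem_univ _, ?_⟩
      have h3 := ih β hβ (hp.insert _) hu
      rwa [image_insert_eq] at h3

variable {S : L.Structure M} {S' : L'.Structure M'} {π : M → M'} {B : M' → Set M}
  {T : L'.Structure N'} {S₁ : L.Structure N} {t : N → N'} {z : N → M} {A : N' → M'}

/-- a representation on the natural numbers -/
theorem exists_rep [∀ n, IsEmpty (L.Functions n)] (hπ : Function.Surjective π) (hB : BH S π B)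
    {T : L'.Structure ℕ} (hT : BFR T S' univ univ 1 ∅) :
    ∃ (S₁ : L.Structure ℕ) (t : ℕ → ℕ) (z : ℕ → M) (A : ℕ → M'),
      Function.Surjective t ∧ Rep S S' π B T S₁ t z A := by
  have hA : ∀ i : ℕ, ∃ a : M', AtEq T S' {(i, a)} := by
    intro i
    obtain ⟨a, -, h⟩ := hT.forth (β := 0) zero_lt_one (mem_univ i)
    refine ⟨a, ?_⟩
    have := h.atEq
    rwa [insert_empty_eq] at this
  choose A hA using hA
  have hne : ∀ a, (B a).Nonempty := by
    intro a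
    obtain ⟨x, rfl⟩ := hπ a
    exact hB.nonempty x
  let NT : Type := {w : ℕ × M // w.2 ∈ B (A w.1)}
  have hc : Countable NT := by
    have h1 : {w : ℕ × M | w.2 ∈ B (A w.1)}.Countable := by
      have e : {w : ℕ × M | w.2 ∈ B (A w.1)} = ⋃ i : ℕ, (fun x => (i, x)) '' B (A i) := by
        ext ⟨i, x⟩
        simp only [mem_ofPred_eq, mem_iUnion, mem_image, Prod.mk.injEq]
        constructor
        · intro h
          exact ⟨i, x, h, rfl, rfl⟩
        · rintro ⟨j, y, h, rfl, rfl⟩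
          exact h
      rw [e]
      exact countable_iUnion fun i => (hB.ctbl _).image _
    exact h1.to_subtype
  have hi : Infinite NT := by
    refine Infinite.of_surjective (fun w : NT => w.1.1) fun i => ?_
    obtain ⟨x, hx⟩ := hne (A i)
    exact ⟨⟨(i, x), hx⟩, rfl⟩
  obtain ⟨e⟩ := nonempty_equiv_of_countable (α := ℕ) (β := NT)
  let t : ℕ → ℕ := fun w => (e w).1.1
  let z : ℕ → M := fun w => (e w).1.2
  let S₁ : L.Structure ℕ :=
    { funMap := fun g => isEmptyElim g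
      RelMap := fun {n} R v => ((∀ i j, t (v i) = t (v j)) ∧ S.RelMap R (fun i => z (v i))) ∨
        (¬ (∀ i j, t (v i) = t (v j)) ∧ ∃ u : Fin n → M,
          AtEq T S' (range fun i => (t (v i), π (u i))) ∧ S.RelMap R u) }
  have hsurj : ∀ i, ∀ b ∈ B (A i), ∃ w, t w = i ∧ z w = b := by
    intro i b hb
    refine ⟨e.symm ⟨(i, b), hb⟩, ?_, ?_⟩
    · show (e (e.symm ⟨(i, b), hb⟩)).1.1 = i
      rw [e.apply_symm_apply]
    · show (e (e.symm ⟨(i, b), hb⟩)).1.2 = b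
      rw [e.apply_symm_apply]
  refine ⟨S₁, t, z, A, fun i => ?_, hA, fun w => (e w).2, fun w w' h1 h2 => ?_, hsurj,
    fun n R v => Iff.rfl⟩
  · obtain ⟨b, hb⟩ := hne (A i)
    obtain ⟨w, hw, -⟩ := hsurj i b hb
    exact ⟨w, hw⟩
  · exact e.injective (Subtype.ext (Prod.ext h1 h2))

/-- the play between a representation and `S` -/
theorem Rep.J {δ' : Ordinal.{0}} (hT : BFR T S' univ univ δ' ∅) :
    J S₁ S t π T S' univ univ δ' ∅ ∅ :=
  ⟨finite_empty, finite_empty, hT, fun c hc => absurd hc (notMem_empty c),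
    fun c hc => absurd hc (notMem_empty c), fun c hc => absurd hc (notMem_empty c)⟩

theorem Rep.bfr (hL : Ar2 L) (hQ : QH S S' π) (hB : BH S π B) (h : Rep S S' π B T S₁ t z A)
    {δ' : Ordinal.{0}} (hδ' : δ' < om1) (hT : BFR T S' univ univ δ' ∅) :
    BFR S₁ S univ univ δ' ∅ := by
  have h1 := J.bfr (h.atRule hL hQ) (h.partRule hQ hB) δ' hδ' (Rep.J (S₁ := S₁) (S := S)
    (t := t) (π := π) hT)
  simpa using h1

theorem Rep.two (hL : Ar2 L) (hQ : QH S S' π) (hB : BH S π B) (h : Rep S S' π B T S₁ t z A)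
    {δ' η : Ordinal.{0}} (hδ' : δ' < om1) (hη : η + Ordinal.omega0 ≤ δ')
    (hT : BFR T S' univ univ δ' ∅) (x y : N) :
    ∃ u w : M, BFR S₁ S univ univ η {(x, u), (y, w)} ∧ (t x = t y ↔ π u = π w) := by
  have hP := h.partRule hQ hB
  have h0 := Rep.J (S₁ := S₁) (S := S) (t := t) (π := π) hT
  have hlt1 : η + 1 < δ' := by
    refine lt_of_lt_of_le ?_ hη
    exact add_lt_add_right Ordinal.one_lt_omega0 η
  have hlt0 : η < η + 1 := lt_add_one_self η
  obtain ⟨w, q, -, -, h1⟩ := h0.forth hP hδ' hlt1 (x := y) (mem_univ _)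
  obtain ⟨u, q', hqq, -, h2⟩ := h1.forth hP (hlt1.trans hδ') hlt0 (x := x) (mem_univ _)
  have e : (insert (x, u) (insert (y, w) (∅ : Set (N × M)))) = {(x, u), (y, w)} := by
    rw [insert_empty_eq]
  rw [e] at h2
  refine ⟨u, w, ?_, ?_⟩
  · have h3 := J.bfr (h.atRule hL hQ) hP η ((hlt0.trans hlt1).trans hδ') h2
    simpa using h3
  · exact h2.idx.atEq.1 _ (h2.pq (x, u) (Or.inl rfl)) _ (h2.pq (y, w) (Or.inr rfl))

variable {T₁ : L'.Structure N₁'} {S₁ : L.Structure N₁} {t₁ : N₁ → N₁'} {z₁ : N₁ → M}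
  {A₁ : N₁' → M'} {T₂ : L'.Structure N₂'} {S₂ : L.Structure N₂} {t₂ : N₂ → N₂'} {z₂ : N₂ → M}
  {A₂ : N₂' → M'}

/-- the parts of representations are definable at level `η` -/
theorem Rep.defN (hL : Ar2 L) (hQ : QH S S' π) (hB : BH S π B) {δ' η : Ordinal.{0}}
    (hd : ∀ x y x' y', BFR S S univ univ η {(x, x'), (y, y')} → (π x = π y ↔ π x' = π y'))
    (hδ' : δ' < om1) (hη : η + Ordinal.omega0 ≤ δ')
    (h₁ : Rep S S' π B T₁ S₁ t₁ z₁ A₁) (hT₁ : BFR T₁ S' univ univ δ' ∅)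
    (h₂ : Rep S S' π B T₂ S₂ t₂ z₂ A₂) (hT₂ : BFR T₂ S' univ univ δ' ∅)
    {x y : N₁} {x' y' : N₂} (hb : BFR S₁ S₂ univ univ η {(x, x'), (y, y')}) :
    t₁ x = t₁ y ↔ t₂ x' = t₂ y' := by
  obtain ⟨u, w, h3, h4⟩ := h₁.two hL hQ hB hδ' hη hT₁ x y
  obtain ⟨u', w', h5, h6⟩ := h₂.two hL hQ hB hδ' hη hT₂ x' y'
  rw [h4, h6]
  refine hd u w u' w' ?_
  have h7 : BFR S S₁ univ univ η {(u, x), (w, y)} := by
    refine h3.symm ?_
    rintro a (rfl | rfl)
    · exact Or.inl rfl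
    · exact Or.inr rfl
  have h8 : BFR S S₂ univ univ η {(u, x'), (w, y')} := by
    refine h7.trans hb ?_
    rintro a (rfl | rfl)
    · exact ⟨x, Or.inl rfl, Or.inl rfl⟩
    · exact ⟨y, Or.inr rfl, Or.inr rfl⟩
  refine h8.trans h5 ?_
  rintro a (rfl | rfl)
  · exact ⟨x', Or.inl rfl, Or.inl rfl⟩
  · exact ⟨y', Or.inr rfl, Or.inr rfl⟩

/-- the class of an element is determined by its type -/
theorem Rep.cls (hL : Ar2 L) (hQ : QH S S' π) (hB : BH S π B) {δ' η α : Ordinal.{0}}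
    (hd : ∀ x y x' y', BFR S S univ univ η {(x, x'), (y, y')} → (π x = π y ↔ π x' = π y'))
    (hα : α < om1) (hSL : ∀ a, SL S {z | π z = a} α)
    (hδ' : δ' < om1) (hη : η + Ordinal.omega0 ≤ δ')
    (h₁ : Rep S S' π B T₁ S₁ t₁ z₁ A₁) (hT₁ : BFR T₁ S' univ univ δ' ∅)
    (h₂ : Rep S S' π B T₂ S₂ t₂ z₂ A₂) (hT₂ : BFR T₂ S' univ univ δ' ∅)
    {x : N₁} {x' : N₂} (hb : BFR S₁ S₂ univ univ (η + (α + Ordinal.omega0)) {(x, x')})
    {a a' : M'} (ha : AtEq T₁ S' {(t₁ x, a)}) (ha' : AtEq T₂ S' {(t₂ x', a')}) :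
    BFI S S {z | π z = a} {z | π z = a'} ∅ := by
  have hαω : α + Ordinal.omega0 < om1 := add_lt_om1 hα omega_lt_om1
  have h3 : BFR S₁ S₂ {w | t₁ w = t₁ x} {w | t₂ w = t₂ x'} (α + Ordinal.omega0) {(x, x')} := by
    refine BFR.restr (subset_univ _) (subset_univ _) η _ ?_ hb
    intro c _ c' _ hc
    exact h₁.defN hL hQ hB hd hδ' hη hT₁ h₂ hT₂ hc
  have h4 := h₁.partRule hQ hB (t₁ x) (mem_univ _) a (mem_univ _) ha _ hαω
  have h5 := h₂.partRule hQ hB (t₂ x') (mem_univ _) a' (mem_univ _) ha' _ hαω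
  have h6 : BFR S S {z | π z = a} {z | π z = a'} (α + Ordinal.omega0) ∅ := by
    have h7 : BFR S S₂ {z | π z = a} {w | t₂ w = t₂ x'} (α + Ordinal.omega0) ∅ :=
      (h4.symm (q := ∅) fun b hb => absurd hb (notMem_empty b)).trans h3
        fun b hb => absurd hb (notMem_empty b)
    exact h7.trans h5 fun b hb => absurd hb (notMem_empty b)
  intro γ _
  exact (hSL a).det' hα finite_empty (fun b hb => absurd hb (notMem_empty b)) h6 γ

/-- The atomic facts of the quotient are determined by the representation. -/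
theorem Rep.atEq (hL : Ar2 L) (hπ : Function.Surjective π) {δ' η α : Ordinal.{0}}
    (H : ∀ p : Set (M' × M'), p.Finite → (AtEq S' S' p ↔
      (∀ a ∈ p, ∀ b ∈ p, a.1 = b.1 ↔ a.2 = b.2) ∧
      (∀ a ∈ p, BFI S S {z | π z = a.1} {z | π z = a.2} ∅) ∧
      (∀ x y x' y', (π x, π x') ∈ p → (π y, π y') ∈ p → π x ≠ π y →
        Pool.Agent.Helper97.LO.bt S x y = Pool.Agent.Helper97.LO.bt S x' y')))
    (hB : BH S π B)
    (hd : ∀ x y x' y', BFR S S univ univ η {(x, x'), (y, y')} → (π x = π y ↔ π x' = π y'))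
    (hα : α < om1) (hSL : ∀ a, SL S {z | π z = a} α)
    (hδ' : δ' < om1) (hη : η + Ordinal.omega0 ≤ δ')
    (h₁ : Rep S S' π B T₁ S₁ t₁ z₁ A₁) (hT₁ : BFR T₁ S' univ univ δ' ∅)
    (h₂ : Rep S S' π B T₂ S₂ t₂ z₂ A₂) (hT₂ : BFR T₂ S' univ univ δ' ∅)
    (p : Set (N₁ × N₂)) (hp : p.Finite)
    (hb : BFR S₁ S₂ univ univ (η + (α + Ordinal.omega0)) p) :
    AtEq T₁ T₂ ((fun a => (t₁ a.1, t₂ a.2)) '' p) := by
  have hQ : QH S S' π := ⟨fun q hq hat => ((H q hq).mp hat).2.1,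
    fun q hq hat => ((H q hq).mp hat).2.2⟩
  let e := hp.toFinset.equivFin
  let x : Fin hp.toFinset.card → N₁ := fun i => (e.symm i).1.1
  let y : Fin hp.toFinset.card → N₂ := fun i => (e.symm i).1.2
  have hpe : ∀ c ∈ p, ∃ i, x i = c.1 ∧ y i = c.2 := by
    intro c hc
    have hc' : c ∈ hp.toFinset := hp.mem_toFinset.mpr hc
    exact ⟨e ⟨c, hc'⟩, by simp [x], by simp [y]⟩
  have hpe' : ∀ i, (x i, y i) ∈ p := by
    intro i
    have := (e.symm i).2
    rw [hp.mem_toFinset] at this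
    exact this
  have hn : (0 : Ordinal.{0}) + ((hp.toFinset.card : ℕ) : Ordinal.{0}) ≤ δ' := by
    rw [zero_add]
    refine (Ordinal.natCast_lt_omega0 _).le.trans (le_trans ?_ hη)
    exact le_add_self
  obtain ⟨a, -, ha⟩ := BFR.forth_many _ (hT₁.mono hn) (fun i => t₁ (x i)) fun _ => mem_univ _
  obtain ⟨a', -, ha'⟩ := BFR.forth_many _ (hT₂.mono hn) (fun i => t₂ (y i)) fun _ => mem_univ _
  rw [empty_union] at ha ha'
  have ha := ha.atEq
  have ha' := ha'.atEq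
  have hdef : ∀ i j, t₁ (x i) = t₁ (x j) ↔ t₂ (y i) = t₂ (y j) := by
    intro i j
    refine h₁.defN hL hQ hB hd hδ' hη hT₁ h₂ hT₂ (BFR.anti ?_ (hb.mono le_self_add))
    rintro c (rfl | rfl)
    · exact hpe' i
    · exact hpe' j
  have hmid : AtEq S' S' (range fun i => (a i, a' i)) := by
    rw [H _ (finite_range _)]
    refine ⟨?_, ?_, ?_⟩
    · rintro _ ⟨i, rfl⟩ _ ⟨j, rfl⟩
      show a i = a j ↔ a' i = a' j
      have h3 := ha.1 (t₁ (x i), a i) ⟨i, rfl⟩ (t₁ (x j), a j) ⟨j, rfl⟩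
      have h4 := ha'.1 (t₂ (y i), a' i) ⟨i, rfl⟩ (t₂ (y j), a' j) ⟨j, rfl⟩
      exact h3.symm.trans ((hdef i j).trans h4)
    · rintro _ ⟨i, rfl⟩
      refine h₁.cls hL hQ hB hd hα hSL hδ' hη hT₁ h₂ hT₂ (x := x i) (x' := y i)
        (BFR.anti ?_ hb) (AtEq.anti ?_ ha) (AtEq.anti ?_ ha')
      · rintro c rfl
        exact hpe' i
      · rintro c rfl
        exact ⟨i, rfl⟩
      · rintro c rfl
        exact ⟨i, rfl⟩
    · rintro u w u' w' ⟨i, hi⟩ ⟨j, hj⟩ hne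
      obtain ⟨hi1, hi2⟩ := Prod.mk.inj hi
      obtain ⟨hj1, hj2⟩ := Prod.mk.inj hj
      have hne1 : t₁ (x i) ≠ t₁ (x j) := by
        intro h'
        have h3 := (ha.1 (t₁ (x i), a i) ⟨i, rfl⟩ (t₁ (x j), a j) ⟨j, rfl⟩).mp h'
        exact hne (hi1.symm.trans (h3.trans hj1))
      have hne2 : t₂ (y i) ≠ t₂ (y j) := fun h' => hne1 ((hdef i j).mpr h')
      have h5 : bt S₁ (x i) (x j) = bt S u w := by
        refine h₁.bt_diff hQ hne1 (AtEq.anti ?_ ha)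
        rintro c (rfl | rfl)
        · exact ⟨i, by rw [← hi1]⟩
        · exact ⟨j, by rw [← hj1]⟩
      have h6 : bt S₂ (y i) (y j) = bt S u' w' := by
        refine h₂.bt_diff hQ hne2 (AtEq.anti ?_ ha')
        rintro c (rfl | rfl)
        · exact ⟨i, by rw [← hi2]⟩
        · exact ⟨j, by rw [← hj2]⟩
      rw [← h5, ← h6]
      exact bt_of_atEq hb.atEq (hpe' i) (hpe' j)
  have h7 : AtEq T₁ S' (range fun i => (t₁ (x i), a' i)) := by
    refine atEq_trans ha hmid ?_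
    rintro _ ⟨i, rfl⟩
    exact ⟨a i, ⟨i, rfl⟩, ⟨i, rfl⟩⟩
  have h8 : AtEq S' T₂ (range fun i => (a' i, t₂ (y i))) := by
    refine atEq_symm ha' ?_
    rintro _ ⟨i, rfl⟩
    exact ⟨i, rfl⟩
  refine atEq_trans h7 h8 ?_
  rintro _ ⟨c, hc, rfl⟩
  obtain ⟨i, hi1, hi2⟩ := hpe c hc
  refine ⟨a' i, ⟨i, ?_⟩, ⟨i, ?_⟩⟩
  · show (t₁ (x i), a' i) = (t₁ c.1, a' i)
    rw [hi1]
  · show (a' i, t₂ (y i)) = (a' i, t₂ c.2)
    rw [hi2]

end Dyn

end Pool.Agent.Helper97.LO
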