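import Pool.Agent.Helper68.VCM.Rep

/-!
# Unions of classes
-/

set_option autoImplicit false
set_option linter.unusedSectionVars false
set_option linter.unusedVariables false

namespace Pool.Agent.Helper97.LO

open Set Pool.Agent.Helper5.DU Pool.Agent.Helper6.Str Pool.Agent.Helper79.VC
  Pool.Agent.Helper97.VC

namespace Dyn

variable {L L' : FirstOrder.Language.{0, 0}} {M M' : Type}
variable {S : L.Structure M} {S' : L'.Structure M'} {π : M → M'}

theorem partRule_self (hQ : QH S S' π) (U V : Set M') : PartRule S S π π S' S' U V := by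
  intro i _ j _ hat γ hγ
  exact hQ.cls _ (toFinite _) hat (i, j) rfl γ hγ

theorem atRule_self (hL : Ar2 L) (hQ : QH S S' π) : AtRule S S π π S' S' := by
  intro p q hp hq hat hpq hparts
  refine atEq_of_pairs hL fun a ha b hb => ?_
  by_cases hab : π a.1 = π b.1
  · refine AtEq.anti ?_ (hparts _ (hpq a ha))
    rintro c (rfl | rfl)
    · exact ⟨ha, rfl⟩
    · exact ⟨hb, hab.symm⟩
  · have hne : π a.2 ≠ π b.2 := fun h' => hab ((hat.1 _ (hpq a ha) _ (hpq b hb)).mpr h')
    refine atEq_pair hL ?_ ?_ ?_ ?_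
    · refine AtEq.anti ?_ (hparts _ (hpq a ha))
      rintro c rfl
      exact ⟨ha, rfl⟩
    · refine AtEq.anti ?_ (hparts _ (hpq b hb))
      rintro c rfl
      exact ⟨hb, rfl⟩
    · constructor
      · intro h'
        exact absurd (congrArg π h') hab
      · intro h'
        exact absurd (congrArg π h') hne
    · exact hQ.bt q hq hat _ _ _ _ (hpq a ha) (hpq b hb) hab

end Dyn

section

variable {L : FirstOrder.Language.{0, 0}} {M N P : Type}
variable [∀ n, IsEmpty (L.Functions n)] [∀ n, Countable (L.Relations n)]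
  {K : Set (L.Structure ℕ)} {δ : Ordinal.{0}} {S : L.Structure M}
variable {L' : FirstOrder.Language.{0, 0}} [∀ n, IsEmpty (L'.Functions n)]
  [∀ n, Countable (L'.Relations n)]

/-- a union of classes is tame if its image is -/
theorem tameX_of_quot (hL : Ar2 L) {M' : Type} {S' : L'.Structure M'} (π : M → M')
    (hm : ∀ z x x', π x = π x' → π z ≠ π x → bt S z x = bt S z x')
    (ht : ∀ x, TameX S {y | π y = π x})
    (H : ∀ p : Set (M' × M'), p.Finite → AtEq S' S' p →
      (∀ a ∈ p, ∀ b ∈ p, a.1 = b.1 ↔ a.2 = b.2) ∧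
      (∀ a ∈ p, BFI S S {z | π z = a.1} {z | π z = a.2} ∅) ∧
      (∀ x y x' y', (π x, π x') ∈ p → (π y, π y') ∈ p → π x ≠ π y → bt S x y = bt S x' y'))
    {X' : Set M'} (hX' : TameX S' X') : TameX S {z | π z ∈ X'} := by
  classical
  have hQ : Dyn.QH S S' π := ⟨fun q hq hat => (H q hq hat).2.1,
    fun q hq hat => (H q hq hat).2.2⟩
  obtain ⟨B, hB⟩ := Dyn.exists_BH ht
  obtain ⟨B', hB'c, -, hB'X, hB'⟩ := hX'.exists_closed countable_empty (empty_subset _)
  have hWc : (⋃ b ∈ B', B b).Countable := hB'c.biUnion fun b _ => hB.ctbl b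
  have hWπ : ∀ x ∈ ⋃ b ∈ B', B b, π x ∈ B' ∧ x ∈ B (π x) := by
    intro x hx
    simp only [mem_iUnion] at hx
    obtain ⟨b, hb, hxb⟩ := hx
    have h1 : π x = b := hB.sub b hxb
    rw [h1]
    exact ⟨hb, hxb⟩
  refine tameX_of_closed hWc (fun x hx => hB'X (hWπ x hx).1) fun F hF c hc => ?_
  have hFπ : ((F.image π : Finset M') : Set M') ⊆ B' := by
    intro b hb
    rw [Finset.coe_image] at hb
    obtain ⟨x, hx, rfl⟩ := hb
    exact (hWπ x (hF hx)).1
  have hPR := Dyn.partRule_self hQ X' X'
  have hAR := Dyn.atRule_self hL hQ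
  by_cases hcB : π c ∈ B'
  · -- the class of `c` is represented
    obtain ⟨d, hd, hcd⟩ := hB.clo (π c) (F.filter fun x => π x = π c) (by
      intro x hx
      rw [Finset.coe_filter] at hx
      rw [← hx.2]
      exact (hWπ x (hF hx.1)).2) c rfl
    refine ⟨d, ?_, fun γ hγ => ?_⟩
    · simp only [mem_iUnion]
      exact ⟨π c, hcB, hd⟩
    · have hdπ : π d = π c := hB.sub _ hd
      refine Dyn.J.bfr hAR hPR γ hγ (q := dg ((insert (π c) (F.image π) : Finset M') : Set M'))
        ⟨?_, ?_, ?_, ?_, ?_, ?_⟩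
      · exact (F.finite_toSet.image _).insert _
      · exact (Finset.finite_toSet _).image _
      · refine BFR.refl S' X' γ ?_
        rintro _ ⟨b, hb, rfl⟩
        refine ⟨hB'X ?_, rfl⟩
        rw [Finset.coe_insert] at hb
        rcases hb with rfl | hb
        · exact hcB
        · exact hFπ hb
      · rintro _ ⟨b, hb, rfl⟩
        have hb' : b ∈ X' := by
          refine hB'X ?_
          rw [Finset.coe_insert] at hb
          rcases hb with rfl | hb
          · exact hcB
          · exact hFπ hb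
        exact ⟨hb', hb'⟩
      · rintro a (rfl | ⟨x, hx, rfl⟩)
        · refine ⟨π c, ?_, ?_⟩
          · rw [Finset.coe_insert]
            exact mem_insert _ _
          · show (π c, π c) = (π c, π d)
            rw [hdπ]
        · refine ⟨π x, ?_, rfl⟩
          rw [Finset.coe_insert, Finset.coe_image]
          exact mem_insert_of_mem _ ⟨x, hx, rfl⟩
      · rintro _ ⟨b, hb, rfl⟩
        by_cases hbc : b = π c
        · subst hbc
          refine BFR.anti ?_ (hcd γ hγ)
          rintro a ⟨rfl | ⟨x, hx, rfl⟩, hab⟩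
          · exact mem_insert _ _
          · refine mem_insert_of_mem _ ⟨x, ?_, rfl⟩
            rw [Finset.coe_filter]
            exact ⟨hx, hab⟩
        · refine BFR.refl S _ γ ?_
          rintro a ⟨rfl | ⟨x, hx, rfl⟩, hab⟩
          · exact absurd hab.symm hbc
          · exact ⟨hab, rfl⟩
  · -- the class of `c` is new
    obtain ⟨b, hb, hcb⟩ := hB' (F.image π) hFπ (π c) hc
    have hat : AtEq S' S' {(π c, b)} := by
      refine AtEq.anti ?_ (hcb 0 (Ordinal.omega_pos 1)).atEq
      rintro a rfl
      exact mem_insert _ _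
    have hcls : BFI S S {z | π z = π c} {z | π z = b} ∅ :=
      hQ.cls _ (toFinite _) hat (π c, b) rfl
    obtain ⟨d, hd, hcd⟩ := exists_uniform (hB.ctbl b)
      (fun d γ => BFR S S {z | π z = π c} {z | π z = b} γ {(c, d)})
      (fun d β γ hβ h => h.mono hβ) (by
        intro γ hγ
        obtain ⟨d', hd', h1⟩ := (hcls (γ + 1) (add_one_lt_om1 hγ)).forth (lt_add_one_self γ)
          (x := c) rfl
        obtain ⟨d, hd, h2⟩ := hB.clo b ∅ (by simp) d' hd'
        refine ⟨d, hd, h1.trans (h2 γ hγ) ?_⟩
        rintro a rfl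
        exact ⟨d', mem_insert _ _, mem_insert _ _⟩)
    have hdπ : π d = b := hB.sub _ hd
    refine ⟨d, ?_, fun γ hγ => ?_⟩
    · simp only [mem_iUnion]
      exact ⟨b, hb, hd⟩
    · refine Dyn.J.bfr hAR hPR γ hγ
        (q := insert (π c, b) (dg ((F.image π : Finset M') : Set M')))
        ⟨?_, ?_, ?_, ?_, ?_, ?_⟩
      · exact (F.finite_toSet.image _).insert _
      · exact ((Finset.finite_toSet _).image _).insert _
      · exact hcb γ hγ
      · rintro _ (rfl | ⟨e, he, rfl⟩)
        · exact ⟨hc, hB'X hb⟩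
        · exact ⟨hB'X (hFπ he), hB'X (hFπ he)⟩
      · rintro a (rfl | ⟨x, hx, rfl⟩)
        · show (π c, π d) ∈ _
          rw [hdπ]
          exact mem_insert _ _
        · refine mem_insert_of_mem _ ⟨π x, ?_, rfl⟩
          rw [Finset.coe_image]
          exact ⟨x, hx, rfl⟩
      · rintro _ (rfl | ⟨e, he, rfl⟩)
        · refine BFR.anti ?_ (hcd γ hγ)
          rintro a ⟨rfl | ⟨x, hx, rfl⟩, hab⟩
          · rfl
          · exfalso
            refine hcB ?_
            have hab' : π x = π c := hab
            rw [← hab']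
            exact (hWπ x (hF hx)).1
        · refine BFR.refl S _ γ ?_
          rintro a ⟨rfl | ⟨x, hx, rfl⟩, hab⟩
          · exfalso
            refine hcB ?_
            have hab' : π c = e := hab
            rw [hab']
            exact hFπ he
          · exact ⟨hab, rfl⟩

end

end Pool.Agent.Helper97.LO
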