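import Pool.Agent.Helper68.VCM.Rep2
import Pool.Agent.Helper68.VCM.TQ

/-!
# VQ: quotients by modules
-/

set_option autoImplicit false
set_option linter.unusedSectionVars false
set_option linter.unusedVariables false

namespace Pool.Agent.Helper97.LO

open Set Pool.Agent.Helper5.DU Pool.Agent.Helper6.Str Pool.Agent.Helper79.VC
  Pool.Agent.Helper97.VC

namespace Dyn

variable {L L' : FirstOrder.Language.{0, 0}} {M M' : Type}

/-- a common Scott level of the classes -/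
theorem exists_SL_classes {S : L.Structure M} {π : M → M'} (hπ : Function.Surjective π)
    (ht : ∀ x, TameX S {y | π y = π x})
    (hk : ∃ κ : M → ℕ, ∀ x y, κ x = κ y → BFI S S {z | π z = π x} {z | π z = π y} ∅) :
    ∃ α < om1, ∀ a, SL S {z | π z = a} α := by
  obtain ⟨κ, hκ⟩ := hk
  have h1 : ∀ n : ℕ, ∃ α, α < om1 ∧ ∀ x, κ x = n → SL S {z | π z = π x} α := by
    intro n
    by_cases hn : ∃ x, κ x = n
    · obtain ⟨x, rfl⟩ := hn
      obtain ⟨α, hα, h⟩ := (ht x).exists_SL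
      exact ⟨α, hα, fun y hy => h.congr hα (hκ x y hy.symm _ (add_lt_om1 hα omega_lt_om1))⟩
    · push Not at hn
      exact ⟨0, Ordinal.omega_pos 1, fun x hx => absurd hx (hn x)⟩
  choose G hG hG' using h1
  obtain ⟨α, hα, hle⟩ := exists_bound hG
  refine ⟨α, hα, fun a => ?_⟩
  obtain ⟨x, rfl⟩ := hπ a
  exact (hG' (κ x) x rfl).mono (hle _)

/-- the atomic facts of the quotient are definable -/
theorem atEq_quot {S : L.Structure M} {S' : L'.Structure M'} {π : M → M'}
    {η α : Ordinal.{0}}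
    (hd : ∀ x y x' y', BFR S S univ univ η {(x, x'), (y, y')} → (π x = π y ↔ π x' = π y'))
    (hm : ∀ z x x', π x = π x' → π z ≠ π x → bt S z x = bt S z x')
    (hα : α < om1) (hSL : ∀ a, SL S {z | π z = a} α)
    (H : ∀ p : Set (M' × M'), p.Finite → (AtEq S' S' p ↔
      (∀ a ∈ p, ∀ b ∈ p, a.1 = b.1 ↔ a.2 = b.2) ∧
      (∀ a ∈ p, BFI S S {z | π z = a.1} {z | π z = a.2} ∅) ∧
      (∀ x y x' y', (π x, π x') ∈ p → (π y, π y') ∈ p → π x ≠ π y → bt S x y = bt S x' y')))
    (p : Set (M × M)) (hp : p.Finite)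
    (h : BFR S S univ univ (η + (α + Ordinal.omega0)) p) :
    AtEq S' S' ((fun a => (π a.1, π a.2)) '' p) := by
  have hdef : ∀ a ∈ p, ∀ b ∈ p, π a.1 = π b.1 ↔ π a.2 = π b.2 := by
    intro a ha b hb
    refine hd a.1 b.1 a.2 b.2 (BFR.anti ?_ (h.mono le_self_add))
    rintro c (rfl | rfl)
    · exact ha
    · exact hb
  rw [H _ (hp.image _)]
  refine ⟨?_, ?_, ?_⟩
  · rintro _ ⟨a, ha, rfl⟩ _ ⟨b, hb, rfl⟩
    exact hdef a ha b hb
  · rintro _ ⟨a, ha, rfl⟩ γ hγ
    have h1 : BFR S S {z | π z = π a.1} {z | π z = π a.2} (α + Ordinal.omega0) {a} := by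
      refine BFR.restr (subset_univ _) (subset_univ _) η _ ?_ (BFR.anti ?_ h)
      · intro c _ c' _ hc
        exact hd c a.1 c' a.2 hc
      · rintro c rfl
        exact ha
    exact (hSL _).det' hα finite_empty (fun b hb => absurd hb (notMem_empty b))
      (BFR.anti (empty_subset _) h1) γ
  · rintro x y x' y' ⟨a, ha, ha'⟩ ⟨b, hb, hb'⟩ hne
    obtain ⟨ha1, ha2⟩ := Prod.mk.inj ha'
    obtain ⟨hb1, hb2⟩ := Prod.mk.inj hb'
    have hne1 : π a.1 ≠ π b.1 := by
      rw [ha1, hb1]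
      exact hne
    have hne2 : π a.2 ≠ π b.2 := fun h' => hne1 ((hdef a ha b hb).mpr h')
    -- change the representatives one after the other
    have e1 : bt S x y = bt S a.1 b.1 := by
      have h1 : bt S x y = bt S x b.1 := by
        refine hm x y b.1 hb1.symm ?_
        exact hne
      have h2 : bt S b.1 x = bt S b.1 a.1 := by
        refine hm b.1 x a.1 ha1.symm ?_
        rw [hb1]
        exact hne.symm
      exact h1.trans (bt_swap h2)
    have e2 : bt S x' y' = bt S a.2 b.2 := by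
      have hne' : π x' ≠ π y' := by
        rw [← ha2, ← hb2]
        exact hne2
      have h1 : bt S x' y' = bt S x' b.2 := hm x' y' b.2 hb2.symm hne'
      have h2 : bt S b.2 x' = bt S b.2 a.2 := by
        refine hm b.2 x' a.2 ha2.symm ?_
        rw [hb2]
        exact hne'.symm
      exact h1.trans (bt_swap h2)
    rw [e1, e2]
    exact bt_of_atEq h.atEq ha hb

/-- countable levels of a large structure with countably many types -/
theorem exists_ctbl [∀ n, IsEmpty (L'.Functions n)] [Infinite M'] {S' : L'.Structure M'}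
    {γ : Ordinal.{0}} (hκ : ∀ F : Finset M', ∃ κ : M' → ℕ, ∀ c c', κ c = κ c' →
      BFR S' S' univ univ γ (insert (c, c') ((fun a => (a, a)) '' (F : Set M')))) :
    ∃ T : L'.Structure ℕ, BFR S' T univ univ γ ∅ := by
  classical
  have h1 : ∀ F : Finset M', ∃ T : Set M', T.Countable ∧ ∀ c : M', ∃ c' ∈ T,
      BFR S' S' univ univ γ (insert (c, c') ((fun a => (a, a)) '' (F : Set M'))) := by
    intro F
    obtain ⟨κ, hκ⟩ := hκ F
    have hrep : ∀ (m : ℕ), ∃ T : Set M', T.Countable ∧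
        ((∃ c, κ c = m) → ∃ c ∈ T, κ c = m) := by
      intro m
      by_cases h : ∃ c, κ c = m
      · obtain ⟨c, hc⟩ := h
        exact ⟨{c}, countable_singleton _, fun _ => ⟨c, rfl, hc⟩⟩
      · exact ⟨∅, countable_empty, fun h' => absurd h' h⟩
    choose T hT1 hT2 using hrep
    refine ⟨⋃ m, T m, countable_iUnion hT1, fun c => ?_⟩
    obtain ⟨c', hc', hcc⟩ := hT2 (κ c) ⟨c, rfl⟩
    exact ⟨c', mem_iUnion.mpr ⟨κ c, hc'⟩, hκ c c' hcc.symm⟩
  choose T hT1 hT2 using h1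
  obtain ⟨A, hAc, hA⟩ := exists_closed T hT1
  have hAd : ∀ F : Finset M', (F : Set M') ⊆ A → ∀ c : M', ∃ c' ∈ A,
      BFR S' S' univ univ γ (insert (c, c') ((fun a => (a, a)) '' (F : Set M'))) := by
    intro F hF c
    obtain ⟨c', hc', h⟩ := hT2 F c
    exact ⟨c', hA F hF hc', h⟩
  obtain ⟨f, hf, hfA⟩ := exists_enum hAc (fun F hF c => by
    obtain ⟨c', hc', h⟩ := hAd F hF c
    exact ⟨c', hc', h.mono (bot_le)⟩)
  refine ⟨pl S' f, ?_⟩
  have h4 : BFR S' S' univ A γ ∅ := closed_rel hAd γ le_rfl ∅ finite_empty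
    (fun a ha => absurd ha (notMem_empty a))
    (BFR.refl S' univ γ fun a ha => absurd ha (notMem_empty a))
  rw [← hfA] at h4
  exact BFR_pl' hf h4 fun a ha => absurd ha (notMem_empty a)

end Dyn

section

variable {L : FirstOrder.Language.{0, 0}} {M N P : Type}
variable [∀ n, IsEmpty (L.Functions n)] [∀ n, Countable (L.Relations n)]
  {K : Set (L.Structure ℕ)} {δ : Ordinal.{0}} {S : L.Structure M}
variable {L' : FirstOrder.Language.{0, 0}} [∀ n, IsEmpty (L'.Functions n)]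
  [∀ n, Countable (L'.Relations n)]

/-- **Quotients.** The classes of `E` are tame modules with countably many types, definable
at the countable level `η`. The structure `S'` lives on the quotient `π : M → M'`; its atomic
facts are: the types of the classes, and the binary relations between different classes. -/
theorem VSt.quot (hL : Ar2 L) {M' : Type} {S' : L'.Structure M'} (hS : VSt K δ S) (π : M → M')
    (hπ : Function.Surjective π) [Infinite M'] {η : Ordinal.{0}} (hη : η < om1)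
    (hd : ∀ x y x' y', BFR S S univ univ η {(x, x'), (y, y')} → (π x = π y ↔ π x' = π y'))
    (hm : ∀ z x x', π x = π x' → π z ≠ π x → bt S z x = bt S z x')
    (ht : ∀ x, TameX S {y | π y = π x})
    (hk : ∃ κ : M → ℕ, ∀ x y, κ x = κ y → BFI S S {z | π z = π x} {z | π z = π y} ∅)
    (H : ∀ p : Set (M' × M'), p.Finite → (AtEq S' S' p ↔
      (∀ a ∈ p, ∀ b ∈ p, a.1 = b.1 ↔ a.2 = b.2) ∧
      (∀ a ∈ p, BFI S S {z | π z = a.1} {z | π z = a.2} ∅) ∧
      (∀ x y x' y', (π x, π x') ∈ p → (π y, π y') ∈ p → π x ≠ π y → bt S x y = bt S x' y'))) :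
    ∃ (K' : Set (L'.Structure ℕ)) (δ' : Ordinal.{0}), VSt K' δ' S' := by
  classical
  obtain ⟨α, hα, hSL⟩ := Dyn.exists_SL_classes hπ ht hk
  obtain ⟨B, hB⟩ := Dyn.exists_BH ht
  have hQ : Dyn.QH S S' π := ⟨fun q hq hat => ((H q hq).mp hat).2.1,
    fun q hq hat => ((H q hq).mp hat).2.2⟩
  set η₁ : Ordinal.{0} := η + (α + Ordinal.omega0) with hη₁
  have hη₁' : η₁ < om1 := add_lt_om1 hη (add_lt_om1 hα omega_lt_om1)
  have hno : ∀ {X Y : Type} (a : X × Y), a ∈ (∅ : Set (X × Y)) → False :=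
    fun a ha => notMem_empty a ha
  -- countable levels of `S'`
  have hlev : ∀ γ < om1, ∃ T : L'.Structure ℕ, BFR S' T univ univ γ ∅ := by
    intro γ hγ
    refine Dyn.exists_ctbl fun F => ?_
    obtain ⟨κ, hκ⟩ := countable_classes hS.scat (add_lt_om1 hη₁' hγ) hS.lev
      (F.image (Function.surjInv hπ))
    refine ⟨fun c => κ (Function.surjInv hπ c), fun c c' hcc => ?_⟩
    have h1 := Dyn.bfr_image (S₁ := S) (S₂ := S) (T₁ := S') (T₂ := S') hπ hπ
      (fun p hp h => Dyn.atEq_quot hd hm hα hSL H p hp h) γ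
      (((Finset.finite_toSet _).image _).insert _) (hκ _ _ hcc)
    refine BFR.anti ?_ h1
    have hs := Function.surjInv_eq hπ
    rintro a (rfl | ⟨b, hb, rfl⟩)
    · exact ⟨_, mem_insert _ _, by simp only [hs]⟩
    · refine ⟨(Function.surjInv hπ b, Function.surjInv hπ b), mem_insert_of_mem _
        ⟨Function.surjInv hπ b, ?_, rfl⟩, by simp only [hs]⟩
      rw [Finset.coe_image]
      exact mem_image_of_mem _ hb
  set δ' : Ordinal.{0} := max δ (η + Ordinal.omega0) with hδ'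
  have hδ'lt : δ' < om1 := max_lt hS.lt (add_lt_om1 hη omega_lt_om1)
  have hδδ' : δ ≤ δ' := le_max_left _ _
  have hηδ' : η + Ordinal.omega0 ≤ δ' := le_max_right _ _
  obtain ⟨T₀, hT₀⟩ := hlev δ' hδ'lt
  have hT₀' : BFR T₀ S' univ univ δ' ∅ := hT₀.symm fun a ha => (hno a ha).elim
  refine ⟨{T | BFR T T₀ univ univ δ' ∅}, δ', ?_⟩
  have hKS : ∀ T ∈ {T : L'.Structure ℕ | BFR T T₀ univ univ δ' ∅},
      BFR T S' univ univ δ' ∅ := by
    intro T hT
    exact BFR.trans hT hT₀' fun a ha => (hno a ha).elim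
  refine ⟨?_, ?_, hδ'lt, hS.om.trans hδδ', ?_, ?_⟩
  · exact measurableSet_BFR T₀ hδ'lt ∅
  · -- scattered
    have hrep : ∀ T : L'.Structure ℕ, ∃ (S₁ : L.Structure ℕ) (t : ℕ → ℕ) (z : ℕ → M)
        (A : ℕ → M'), BFR T T₀ univ univ δ' ∅ →
          (Function.Surjective t ∧ Dyn.Rep S S' π B T S₁ t z A) := by
      intro T
      by_cases hT : BFR T T₀ univ univ δ' ∅
      · have h1 : (1 : Ordinal.{0}) ≤ δ' := by
          refine le_trans ?_ hηδ'
          exact Ordinal.one_lt_omega0.le.trans le_add_self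
        obtain ⟨S₁, t, z, A, h2, h3⟩ := Dyn.exists_rep hπ hB (S := S) ((hKS T hT).mono h1)
        exact ⟨S₁, t, z, A, fun _ => ⟨h2, h3⟩⟩
      · obtain ⟨x⟩ : Nonempty M := by
          obtain ⟨a⟩ := (inferInstance : Nonempty M')
          exact ⟨Function.surjInv hπ a⟩
        exact ⟨pl S fun _ => x, id, fun _ => x, fun _ => π x, fun h => absurd h hT⟩
    choose SR t z A hR using hrep
    have hSRK : ∀ T, BFR T T₀ univ univ δ' ∅ → SR T ∈ K := by
      intro T hT
      have h1 := (hR T hT).2.bfr hL hQ hB hδ'lt (hKS T hT)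
      obtain ⟨S1, hS1, h2⟩ := hS.lev δ hS.lt
      have h3 : BFR (SR T) S1 univ univ δ ∅ := (h1.mono hδδ').trans h2
        fun a ha => (hno a ha).elim
      exact hS.clos S1 hS1 _ (h3.symm fun a ha => (hno a ha).elim)
    intro γ hγ n
    obtain ⟨ρ, hρ⟩ := hS.scat (η₁ + γ) (add_lt_om1 hη₁' hγ) n
    let Q : ℕ → L'.Structure ℕ → (Fin n → ℕ) → Prop := fun m T v =>
      BFR T T₀ univ univ δ' ∅ ∧ ∃ vh : Fin n → ℕ, (∀ i, t T (vh i) = v i) ∧
        BFR (SR T) (ρ m).1 univ univ (η₁ + γ) (pr vh (ρ m).2)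
    have hσ : ∀ m : ℕ, ∃ σ : L'.Structure ℕ × (Fin n → ℕ), (∃ T v, Q m T v) → Q m σ.1 σ.2 := by
      intro m
      by_cases h : ∃ T v, Q m T v
      · obtain ⟨T, v, h⟩ := h
        exact ⟨(T, v), fun _ => h⟩
      · exact ⟨(T₀, fun _ => 0), fun h' => absurd h' h⟩
    choose σ hσ using hσ
    refine ⟨σ, fun T hT v => ?_⟩
    obtain ⟨vh, hvh⟩ : ∃ vh : Fin n → ℕ, ∀ i, t T (vh i) = v i := by
      choose f hf using fun i => (hR T hT).1 (v i)
      exact ⟨f, hf⟩
    obtain ⟨m, -, hm⟩ := hρ (SR T) (hSRK T hT) vh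
    obtain ⟨hT', vh', hvh', hm'⟩ := hσ m ⟨T, v, hT, vh, hvh, hm⟩
    refine ⟨m, hT', ?_⟩
    have h1 : BFR (SR T) (SR (σ m).1) univ univ (η₁ + γ) (range fun i => (vh i, vh' i)) := by
      refine hm.trans (hm'.symm (q := range fun i => ((ρ m).2 i, vh' i)) ?_) ?_
      · rintro _ ⟨i, rfl⟩
        exact ⟨i, rfl⟩
      · rintro _ ⟨i, rfl⟩
        exact ⟨(ρ m).2 i, ⟨i, rfl⟩, ⟨i, rfl⟩⟩
    have h2 := Dyn.bfr_image (S₁ := SR T) (S₂ := SR (σ m).1) (T₁ := T) (T₂ := (σ m).1)
      (hR T hT).1 (hR _ hT').1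
      (fun p hp h => (hR T hT).2.atEq hL hπ H hB hd hα hSL hδ'lt hηδ' (hKS T hT)
        (hR _ hT').2 (hKS _ hT') p hp h) γ (finite_range _) h1
    refine BFR.anti ?_ h2
    rintro _ ⟨i, rfl⟩
    refine ⟨(vh i, vh' i), ⟨i, rfl⟩, ?_⟩
    show (t T (vh i), t (σ m).1 (vh' i)) = _
    rw [hvh, hvh']
  · -- closed
    intro T hT T' hTT'
    have h1 : BFR T' T univ univ δ' ∅ := hTT'.symm fun a ha => (hno a ha).elim
    exact BFR.trans h1 hT fun a ha => (hno a ha).elim
  · -- levels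
    intro γ hγ
    obtain ⟨T, hT⟩ := hlev (max γ δ') (max_lt hγ hδ'lt)
    refine ⟨T, ?_, hT.mono (le_max_left _ _)⟩
    have h1 : BFR T S' univ univ δ' ∅ := (hT.mono (le_max_right _ _)).symm
      fun a ha => (hno a ha).elim
    exact h1.trans hT₀ fun a ha => (hno a ha).elim

end

end Pool.Agent.Helper97.LO
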